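import Pool.Agent.Lib.MP_7c5c90_an.RP.SC

/-!
The sharp `L¹` inequality on the regular polygon.
-/

set_option autoImplicit false

open MeasureTheory Set Complex Filter Topology Metric
open scoped Real

namespace Pool.Agent.Lib.MP_7c5c90_an.RP

variable {n : ℕ}

theorem one_sub_ne {y : ℂ} (hy : ‖y‖ < 1) : 1 - y ≠ 0 := fun h => by
  rw [← sub_eq_zero.1 h, norm_one] at hy
  exact lt_irrefl _ hy

theorem frac_sum (hn : 3 ≤ n) {u y : ℂ} (hu : IsPrimitiveRoot u n) (hy : ‖y‖ < 1) :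
    ∑ j ∈ Finset.range n, (1 - u ^ j * y)⁻¹ = n * (1 - y ^ n)⁻¹ := by
  have h1 : ‖u‖ = 1 := hu.norm'_eq_one (by omega)
  have h2 : 1 - y ^ n ≠ 0 :=
    one_sub_ne (by rw [norm_pow]; exact pow_lt_one₀ (norm_nonneg _) hy (by omega))
  have h3 : ∀ j ∈ Finset.range n, (1 - u ^ j * y)⁻¹ * (1 - y ^ n) =
      ∑ k ∈ Finset.range n, y ^ k * (u ^ k) ^ j := fun j _ => by
    have a1 : 1 - u ^ j * y ≠ 0 := one_sub_ne (by rwa [norm_mul, norm_pow, h1, one_pow, one_mul])
    have a2 := mul_neg_geom_sum (u ^ j * y) n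
    rw [mul_pow, ← pow_mul, mul_comm j n, pow_mul, hu.pow_eq_one, one_pow, one_mul] at a2
    rw [← a2, inv_mul_cancel_left₀ a1]
    exact Finset.sum_congr rfl fun k _ => by ring
  rw [eq_mul_inv_iff_mul_eq₀ h2, Finset.sum_mul, Finset.sum_congr rfl h3, Finset.sum_comm,
    Finset.sum_eq_single_of_mem 0 (Finset.mem_range.2 (by omega))]
  · simp
  · intro k hk hk0
    have a1 := hu.pow_ne_one_of_pos_of_lt hk0 (Finset.mem_range.1 hk)
    have a2 := mul_neg_geom_sum (u ^ k) n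
    rw [← pow_mul, mul_comm k n, pow_mul, hu.pow_eq_one, one_pow, sub_self] at a2
    rw [← Finset.mul_sum, (mul_eq_zero.1 a2).resolve_left (sub_ne_zero.2 a1.symm), mul_zero]

theorem continuous_e : Continuous e := by unfold e; fun_prop

theorem norm_mul_e {s : ℝ} (hs : 0 ≤ s) (t : ℝ) : ‖(s : ℂ) * e t‖ = s := by
  rw [norm_mul, norm_e, mul_one, Complex.norm_real, Real.norm_of_nonneg hs]

/-- The estimate on one circle. -/
theorem circle (hn : 3 ≤ n) {u : ℂ} (hu : IsPrimitiveRoot u n) {Q : ℂ → ℂ}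
    (hQ : DifferentiableOn ℂ Q (ball 0 1)) (hQ0 : Q 0 = 0) {s : ℝ} (h0 : 0 < s) (h1 : s < 1) :
    2 * π * ((1 - (s ^ 2) ^ n) * ‖∑ j ∈ Finset.range n, Q (u ^ j * (s ^ 2 : ℝ))‖) ≤
      n * s ^ n * ∫ t in (-π)..π, ‖Q (s * e t)‖ := by
  have hu1 : ‖u‖ = 1 := hu.norm'_eq_one (by omega)
  have hd : DifferentiableOn ℂ (fun z => Q z * (1 - z ^ n)) (closedBall 0 s) :=
    (hQ.mono (closedBall_subset_ball h1)).mul (by fun_prop)
  set J : ℂ → ℝ → ℂ := fun w t =>
    s * e t * I * ((s * e t - w)⁻¹ * (Q (s * e t) * (1 - (s * e t) ^ n))) with hJ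
  have hQc : Continuous fun t => Q (s * e t) :=
    hQ.continuousOn.comp_continuous (continuous_const.mul continuous_e) fun t => by
      rw [mem_ball_zero_iff, norm_mul_e h0.le]
      exact h1
  have j1 : ∀ w : ℂ, ‖w‖ < s → ∫ t in (0 : ℝ)..2 * π, J w t = 2 * π * I * (Q w * (1 - w ^ n)) :=
    fun w hw => by
      have := hd.circleIntegral_sub_inv_smul (mem_ball_zero_iff.2 hw)
      simp only [circleIntegral, deriv_circleMap, circleMap, zero_add, smul_eq_mul] at this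
      exact this
  have j2 : ∀ w : ℂ, ‖w‖ < s → IntervalIntegrable (J w) volume 0 (2 * π) := fun w hw => by
    have := continuous_e
    refine Continuous.intervalIntegrable (Continuous.mul (by fun_prop) (Continuous.mul
      (Continuous.inv₀ (by fun_prop) fun t h => ?_) (hQc.mul (by fun_prop)))) _ _
    rw [← sub_eq_zero.1 h, norm_mul_e h0.le] at hw
    exact lt_irrefl _ hw
  have hw : ∀ j : ℕ, ‖u ^ j * (s ^ 2 : ℝ)‖ < s := fun j => by
    rw [norm_mul, norm_pow, hu1, one_pow, one_mul, Complex.norm_real,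
      Real.norm_of_nonneg (sq_nonneg s)]
    nlinarith
  have j3 : ∫ t in (0 : ℝ)..2 * π, (∑ j ∈ Finset.range n, J (u ^ j * (s ^ 2 : ℝ)) t - n * J 0 t) =
      (2 * π * (1 - (s ^ 2) ^ n) : ℝ) * I * ∑ j ∈ Finset.range n, Q (u ^ j * (s ^ 2 : ℝ)) := by
    have a1 : IntervalIntegrable (fun t => ∑ j ∈ Finset.range n, J (u ^ j * (s ^ 2 : ℝ)) t) volume
        0 (2 * π) := by
      have := IntervalIntegrable.sum (Finset.range n) fun j _ => j2 _ (hw j)
      rwa [Finset.sum_fn] at this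
    rw [intervalIntegral.integral_sub a1 ((j2 0 (by simpa using h0)).const_mul _),
      intervalIntegral.integral_finsetSum fun j _ => j2 _ (hw j),
      intervalIntegral.integral_const_mul, j1 0 (by simpa using h0), hQ0, Finset.mul_sum,
      zero_mul, mul_zero, mul_zero, sub_zero]
    refine Finset.sum_congr rfl fun j _ => ?_
    rw [j1 _ (hw j), mul_pow, ← pow_mul, mul_comm j n, pow_mul, hu.pow_eq_one]
    push_cast
    ring
  have j4 : ∀ t, ‖∑ j ∈ Finset.range n, J (u ^ j * (s ^ 2 : ℝ)) t - n * J 0 t‖ =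
      n * s ^ n * ‖Q (s * e t)‖ := fun t => by
    have a0 := norm_mul_e h0.le t
    simp only [hJ]
    generalize (s : ℂ) * e t = z at a0
    have a1 : z ≠ 0 := fun h => by rw [h, norm_zero] at a0; exact h0.ne a0
    have a2 : ‖(starRingEnd ℂ) z‖ < 1 := by rw [Complex.norm_conj, a0]; exact h1
    have a3 : ((s ^ 2 : ℝ) : ℂ) = z * (starRingEnd ℂ) z := by
      rw [Complex.mul_conj, Complex.normSq_eq_norm_sq, a0]
    have a4 : ‖1 - z ^ n‖ = ‖1 - (starRingEnd ℂ) z ^ n‖ := by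
      rw [← Complex.norm_conj, map_sub, map_one, map_pow]
    have a5 : 1 - (starRingEnd ℂ) z ^ n ≠ 0 :=
      one_sub_ne (by rw [norm_pow]; exact pow_lt_one₀ (norm_nonneg _) a2 (by omega))
    have a6 : ∀ j ∈ Finset.range n, z * I * ((z - u ^ j * (s ^ 2 : ℝ))⁻¹ * (Q z * (1 - z ^ n))) =
        (1 - u ^ j * (starRingEnd ℂ) z)⁻¹ * (I * (Q z * (1 - z ^ n))) := fun j _ => by
      rw [a3, show z - u ^ j * (z * (starRingEnd ℂ) z) = z * (1 - u ^ j * (starRingEnd ℂ) z) by ring,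
        mul_inv]
      field_simp
    have a7 : (n : ℂ) * (1 - (starRingEnd ℂ) z ^ n)⁻¹ * (I * (Q z * (1 - z ^ n))) -
        n * (z * I * ((z - 0)⁻¹ * (Q z * (1 - z ^ n)))) =
        n * (starRingEnd ℂ) z ^ n * I * Q z * ((1 - z ^ n) / (1 - (starRingEnd ℂ) z ^ n)) := by
      rw [sub_zero]
      field_simp
      ring
    rw [Finset.sum_congr rfl a6, ← Finset.sum_mul, frac_sum hn hu a2, a7, norm_mul, norm_div, a4,
      div_self (norm_ne_zero_iff.2 a5)]
    simp [a0]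
  have j5 := intervalIntegral.norm_integral_le_integral_norm (μ := volume) (f := fun t =>
    ∑ j ∈ Finset.range n, J (u ^ j * (s ^ 2 : ℝ)) t - n * J 0 t) Real.two_pi_pos.le
  have hp : Function.Periodic (fun t => ‖Q (s * e t)‖) (2 * π) := fun t => by
    have : e (2 * π) = 1 := by simp [e]
    simp only [e_add, this, mul_one]
  have j6 := hp.intervalIntegral_add_eq 0 (-π)
  rw [zero_add, show -π + 2 * π = π by ring] at j6
  have j7 : 0 ≤ 2 * π * (1 - (s ^ 2) ^ n) := mul_nonneg Real.two_pi_pos.le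
    (sub_nonneg.2 (pow_le_one₀ (sq_nonneg s) (pow_le_one₀ h0.le h1.le)))
  simp only [j4] at j5
  rw [j3, intervalIntegral.integral_const_mul, j6, norm_mul, norm_mul, Complex.norm_I, mul_one,
    Complex.norm_real, Real.norm_of_nonneg j7, mul_assoc] at j5
  exact j5

theorem core (hn : 3 ≤ n) {h : ℂ → ℂ} (hh : DifferentiableOn ℂ h (Pol n 1)) (h0 : h 0 = 0)
    (hi : IntegrableOn h (Pol n 1)) {ρ : ℝ} (hρ : 0 < ρ) (hρ1 : ρ < 1) :
    (π - 2 * th n) * ‖∫ z in Pol n ρ, h z‖ ≤ Real.sin (2 * th n) * ∫ z in Pol n 1, ‖h z‖ := by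
  have hK := K_pos hn
  have hT := T_pos hn
  have hN := npos hn
  have hu := (zt_prim hn).inv
  have hun : ∀ j : ℕ, ((zt n)⁻¹ ^ j) ^ n = 1 := fun j => by
    rw [← pow_mul, mul_comm, pow_mul, hu.pow_eq_one, one_pow]
  have hω : π - 2 * th n = π / n * (n - 2) := by rw [th]; field_simp
  have hω0 : 0 ≤ π - 2 * th n := by linarith [th_le hn, th_pos hn]
  have hs0 : 0 ≤ Real.sin (2 * th n) :=
    Real.sin_nonneg_of_nonneg_of_le_pi (by linarith [th_pos hn]) (by linarith)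
  set K := fr n 1 with hKd
  set c : ℂ := (ρ / K : ℝ) * vx n with hc
  have hc0 : c ≠ 0 := mul_ne_zero (ofReal_ne_zero.2 (div_pos hρ hK).ne') vx_ne
  have hΦ : ∀ w ∈ ball (0 : ℂ) 1, c * sc n w ∈ Pol n 1 := fun w hw k => by
    have := mul_le_mul_of_nonneg_left (image_le hn k (mem_ball_zero_iff.1 hw)) (div_pos hρ hK).le
    rw [div_mul_cancel₀ _ hK.ne', ← re_ofReal_mul] at this
    refine lt_of_eq_of_lt ?_ (this.trans_lt hρ1)
    congr 1
    rw [hc]
    ring
  have hΦd : ∀ w ∈ ball (0 : ℂ) 1, HasDerivAt (fun w => c * sc n w) (c * fd n w) w := fun w hw =>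
    (hasDerivAt_sc (mem_Us hn (mem_ball_zero_iff.1 hw))).const_mul c
  set Q : ℂ → ℂ := fun w => (c * fd n w) ^ 2 * h (c * sc n w) with hQ
  have hQd : DifferentiableOn ℂ Q (ball 0 1) :=
    DifferentiableOn.mul (fun w hw => (((differentiableAt_fd (mem_Us hn
      (mem_ball_zero_iff.1 hw))).const_mul c).pow 2).differentiableWithinAt)
      (hh.comp (fun w hw => (hΦd w hw).differentiableAt.differentiableWithinAt) hΦ)
  have hQ0 : Q 0 = 0 := by simp [hQ, sc, h0]
  have hv : (ρ : ℂ) * vx n ∈ Pol n 1 :=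
    mem_Pol_of hn (by simpa [vx] using hρ1) (by
      simp only [vx, im_ofReal_mul, re_ofReal_mul]
      simp [abs_of_pos hρ, abs_of_pos hT, mul_comm])
  have hj : ∀ j : ℕ, ContinuousOn (fun t : ℝ => h (t * ((zt n)⁻¹ ^ j * (ρ * vx n)))) (uIcc 0 1) :=
    fun j => hh.continuousOn.comp (by fun_prop) fun t ht =>
      smul_mem (convex_Pol 1) (zero_mem_Pol one_pos) (inv_mul_mem_Pol hn hv j) ht
  set S : ℝ → ℂ := fun t => ∑ j ∈ Finset.range n, h (t * ((zt n)⁻¹ ^ j * (ρ * vx n))) with hS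
  set G : ℝ → ℝ := fun t => (1 - t) * ‖S t‖ with hG
  have hGc : ContinuousOn G (uIcc 0 1) :=
    ContinuousOn.mul (by fun_prop) (continuousOn_finsetSum _ fun j _ => hj j).norm
  have s1 : ‖∫ z in Pol n ρ, h z‖ ≤ 2 * T n * ρ ^ 2 * ∫ t in (0 : ℝ)..1, G t := by
    rw [davis hn hρ hρ1 hh, norm_mul, show (2 * T n * ρ ^ 2 : ℂ) = (2 * T n * ρ ^ 2 : ℝ) by norm_cast,
      Complex.norm_real, Real.norm_of_nonneg (by positivity)]
    refine mul_le_mul_of_nonneg_left ?_ (by positivity)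
    simp only [rad]
    rw [← intervalIntegral.integral_finsetSum (f := fun (j : ℕ) (t : ℝ) =>
      (1 - (t : ℂ)) * h (t * ((zt n)⁻¹ ^ j * (ρ * vx n)))) fun j _ =>
        (ContinuousOn.mul (by fun_prop) (hj j)).intervalIntegrable]
    refine (intervalIntegral.norm_integral_le_integral_norm zero_le_one).trans (le_of_eq ?_)
    refine intervalIntegral.integral_congr fun t ht => ?_
    rw [uIcc_of_le zero_le_one] at ht
    simp only [hG, hS, ← Finset.mul_sum, norm_mul]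
    rw [show (1 - t : ℂ) = (1 - t : ℝ) by norm_cast, Complex.norm_real,
      Real.norm_of_nonneg (sub_nonneg.2 ht.2)]
  set g : ℝ → ℝ := fun s => fr n (s ^ 2) / K with hg
  have hsq : ∀ s ∈ Icc (0 : ℝ) 1, s ^ 2 ∈ Icc (0 : ℝ) 1 := fun s hs =>
    ⟨sq_nonneg s, pow_le_one₀ hs.1 hs.2⟩
  have hgm : ∀ s ∈ Icc (0 : ℝ) 1, g s ∈ uIcc (0 : ℝ) 1 := fun s hs => by
    have := fr_mem hn (hsq s hs)
    rw [uIcc_of_le zero_le_one]
    exact ⟨div_nonneg this.1 hK.le, (div_le_one hK).2 this.2⟩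
  have hgc : ContinuousOn g (Icc 0 1) :=
    ((continuousOn_fr hn).comp (continuousOn_pow 2) hsq).div_const _
  have s2 : ∀ s : ℝ, 0 < s → s < 1 → (π - 2 * th n) * (2 * T n * ρ ^ 2) *
      (G (g s) * (fdr n (s ^ 2) * (2 * s) / K)) ≤
        Real.sin (2 * th n) * (s * ∫ t in (-π)..π, ‖Q (s * e t)‖) := fun s a b => by
    have a1 := circle hn hu hQd hQ0 a b
    have a2 := weight hn a b
    have a3 := hsq s ⟨a.le, b.le⟩
    have hD := fdr_pos (n := n) (s ^ 2)
    have a4 : ∑ j ∈ Finset.range n, Q ((zt n)⁻¹ ^ j * (s ^ 2 : ℝ)) =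
        (c * fdr n (s ^ 2)) ^ 2 * S (g s) := by
      rw [hS, Finset.mul_sum]
      refine Finset.sum_congr rfl fun j _ => ?_
      simp only [hQ, hg]
      rw [fd_root (hun j), sc_root (hun j), fd_real a3.1 a3.2, sc_real a3.1 a3.2, hc]
      congr 2
      push_cast
      ring
    have a5 : ‖(c * fdr n (s ^ 2)) ^ 2‖ = (ρ / K) ^ 2 * (1 + T n ^ 2) * fdr n (s ^ 2) ^ 2 := by
      rw [norm_pow, hc, norm_mul, norm_mul, mul_pow, mul_pow, normSq_vx, Complex.norm_real,
        Complex.norm_real, Real.norm_eq_abs, Real.norm_eq_abs, sq_abs, sq_abs]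
    rw [a4, norm_mul, a5] at a1
    have a6 : 0 < n * s ^ n := by positivity
    refine le_of_mul_le_mul_left ?_ a6
    have a7 := mul_le_mul_of_nonneg_left a1 (mul_nonneg hs0 a.le)
    have a8 := mul_le_mul_of_nonneg_left a2 (show 0 ≤ Real.sin (2 * th n) * s * (2 * π) *
      ((ρ / K) ^ 2 * (1 + T n ^ 2) * fdr n (s ^ 2) * ‖S (g s)‖) by positivity)
    refine le_trans (le_of_eq ?_) (a8.trans (le_trans (le_of_eq ?_) (a7.trans (le_of_eq ?_))))
    · rw [hω, two_T hn]
      simp only [hG]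
      generalize ‖S (g s)‖ = X
      simp only [hg, ← hKd]
      field_simp
    · ring
    · ring
  have s3 : ∀ r ∈ Ioo (0 : ℝ) 1, (π - 2 * th n) * (2 * T n * ρ ^ 2) * ∫ t in (0 : ℝ)..g r, G t ≤
      Real.sin (2 * th n) * ∫ z in Pol n 1, ‖h z‖ := fun r hr => by
    have hsub : uIcc 0 r ⊆ Icc (0 : ℝ) 1 := by
      rw [uIcc_of_le hr.1.le]
      exact Icc_subset_Icc le_rfl hr.2.le
    have hlt : ∀ s ∈ uIcc 0 r, s ^ 2 < 1 := fun s hs => by
      rw [uIcc_of_le hr.1.le] at hs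
      exact pow_lt_one₀ hs.1 (hs.2.trans_lt hr.2) two_ne_zero
    have b1 : ∀ s ∈ uIcc 0 r, HasDerivAt g (fdr n (s ^ 2) * (2 * s) / K) s := fun s hs => by
      have := (HasDerivAt.comp (h := fun x : ℝ => x ^ 2) s
        (hasDerivAt_fr hn (sq_nonneg s) (hlt s hs)) (hasDerivAt_pow 2 s)).div_const K
      exact this.congr_deriv (by simp)
    have b2 : ContinuousOn (fun s : ℝ => fdr n (s ^ 2) * (2 * s) / K) (uIcc 0 r) := by
      refine (ContinuousOn.mul ?_ (by fun_prop)).div_const _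
      unfold fdr
      exact (continuousOn_const.mul (ContinuousOn.log (by fun_prop) fun s hs =>
        (sub_pos.2 (pow_lt_one₀ (sq_nonneg s) (hlt s hs) (by omega))).ne')).rexp
    have b3 : ContinuousOn G (g '' uIcc 0 r) := hGc.mono (by
      rintro _ ⟨s, hs, rfl⟩
      exact hgm s (hsub hs))
    have b4 := intervalIntegral.integral_comp_mul_deriv' b1 b2 b3
    rw [show g 0 = 0 by simp [hg, fr_zero]] at b4
    have hB : Box 0 r π ⊆ ball 0 1 := fun w hw => mem_ball_zero_iff.2 (hw.1.2.trans hr.2)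
    obtain ⟨b5, b6⟩ := polar_box le_rfl hr.1.le Real.pi_pos.le le_rfl (F := fun w => ‖Q w‖)
      (hQd.continuousOn.norm.mono fun w hw => mem_ball_zero_iff.2 (hw.2.trans_lt hr.2))
    have b7 := integral_image_holo (measurableSet_Box 0 r π) (fun w hw => hΦd w (hB hw))
      (fun a ha b hb hab => injOn_sc hn (hB ha) (hB hb) (mul_left_cancel₀ hc0 hab)) fun z => ‖h z‖
    have b8 : ∫ z in (fun w => c * sc n w) '' Box 0 r π, ‖h z‖ ≤ ∫ z in Pol n 1, ‖h z‖ :=
      setIntegral_mono_set hi.norm (Eventually.of_forall fun _ => norm_nonneg _)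
        (LE.le.eventuallyLE (by
          rintro _ ⟨w, hw, rfl⟩
          exact hΦ w (hB hw)))
    have b9 : ∫ w in Box 0 r π, ‖Q w‖ ≤ ∫ z in Pol n 1, ‖h z‖ := by
      refine le_trans (le_of_eq ?_) b8
      rw [b7]
      simp only [hQ, norm_mul, norm_pow]
    rw [← b4, ← intervalIntegral.integral_const_mul]
    refine le_trans ?_ (mul_le_mul_of_nonneg_left b9 hs0)
    rw [b6, ← intervalIntegral.integral_const_mul]
    refine intervalIntegral.integral_mono_on_of_le_Ioo hr.1.le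
      (continuousOn_const.mul ((hGc.comp (hgc.mono hsub) fun s hs =>
        hgm s (hsub hs)).mul b2)).intervalIntegrable (b5.const_mul _) fun s hs =>
          s2 s hs.1 (hs.2.trans hr.2)
  have s4 : ContinuousWithinAt (fun r => (π - 2 * th n) * (2 * T n * ρ ^ 2) *
      ∫ t in (0 : ℝ)..g r, G t) (Ioo 0 1) 1 :=
    ((continuousOn_const.mul ((intervalIntegral.continuousOn_primitive_interval
      hGc.integrableOn_uIcc).comp hgc hgm)) 1 (right_mem_Icc.2 zero_le_one)).mono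
        Ioo_subset_Icc_self
  have := right_nhdsWithin_Ioo_neBot (zero_lt_one (α := ℝ))
  have s5 := le_of_tendsto s4 (eventually_nhdsWithin_of_forall s3)
  beta_reduce at s5
  rw [show g 1 = 1 by simp only [hg, one_pow]; exact div_self hK.ne', mul_assoc] at s5
  exact (mul_le_mul_of_nonneg_left s1 hω0).trans s5

/-- The sharp `L¹` inequality for holomorphic functions vanishing at the centre. -/
theorem l1_bound (hn : 3 ≤ n) {h : ℂ → ℂ} (hh : DifferentiableOn ℂ h (Pol n 1)) (h0 : h 0 = 0)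
    (hi : IntegrableOn h (Pol n 1)) :
    (π - 2 * th n) * ‖∫ z in Pol n 1, h z‖ ≤ Real.sin (2 * th n) * ∫ z in Pol n 1, ‖h z‖ := by
  set ρ : ℕ → ℝ := fun m => 1 - 1 / ((m : ℝ) + 2) with hρ
  have hρ0 : ∀ m, 0 < ρ m := fun m => by
    have : 1 / ((m : ℝ) + 2) < 1 := by
      rw [div_lt_one (by positivity)]
      linarith [Nat.cast_nonneg (α := ℝ) m]
    exact sub_pos.2 this
  have hρ1 : ∀ m, ρ m < 1 := fun m => sub_lt_self _ (by positivity)
  have hρm : Monotone ρ := fun a b hab => by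
    have : (a : ℝ) ≤ b := by exact_mod_cast hab
    exact sub_le_sub_left (one_div_le_one_div_of_le (by positivity) (by linarith)) _
  have hρt : Tendsto ρ atTop (𝓝 1) := by
    have : Tendsto (fun m : ℕ => 1 / ((m : ℝ) + 2)) atTop (𝓝 0) :=
      tendsto_const_nhds.div_atTop (tendsto_atTop_add_const_right _ _ tendsto_natCast_atTop_atTop)
    have h2 := this.const_sub 1
    rwa [sub_zero] at h2
  have hU : ⋃ m, Pol n (ρ m) = Pol n 1 := by
    refine subset_antisymm (iUnion_subset fun m => Pol_mono (hρ1 m).le) fun z hz => ?_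
    obtain ⟨j, -, hj⟩ := exists_max hn z
    obtain ⟨m, hm⟩ := (hρt.eventually (lt_mem_nhds (hz j))).exists
    exact mem_iUnion.2 ⟨m, fun k => (hj k).trans_lt hm⟩
  have ht := tendsto_setIntegral_of_monotone (μ := volume) (f := h) (s := fun m => Pol n (ρ m))
    (fun m => (isOpen_Pol hn _).measurableSet) (fun a b hab => Pol_mono (hρm hab))
    (by rw [hU]; exact hi)
  rw [hU] at ht
  exact le_of_tendsto' (ht.norm.const_mul _) fun m => core hn hh h0 hi (hρ0 m) (hρ1 m)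

end Pool.Agent.Lib.MP_7c5c90_an.RP
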