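import Pool.Agent.Lib.MP_7c5c90_an.RP.Geo

/-!
The area integral of a holomorphic function over a regular polygon, and polar coordinates.
-/

set_option autoImplicit false

open MeasureTheory Set Complex Filter Topology
open scoped Real

namespace Pool.Agent.Lib.MP_7c5c90_an.RP

variable {n : ℕ}

/-- The weighted radial integral. -/
noncomputable def rad (h : ℂ → ℂ) (w : ℂ) : ℂ := ∫ t in (0 : ℝ)..1, (1 - (t : ℂ)) * h (t * w)

theorem integrableOn_Pol {E : Type} [NormedAddCommGroup E] (hn : 3 ≤ n) {ρ ρ' : ℝ} (hρ : ρ < ρ')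
    {h : ℂ → E} (hh : ContinuousOn h (Pol n ρ')) : IntegrableOn h (Pol n ρ) := by
  have hs : {z : ℂ | ∀ k : ℕ, (zt n ^ k * z).re ≤ ρ} ⊆ Pol n ρ' := fun z hz k => (hz k).trans_lt hρ
  have hc : IsCompact {z : ℂ | ∀ k : ℕ, (zt n ^ k * z).re ≤ ρ} := by
    refine Metric.isCompact_of_isClosed_isBounded ?_ ?_
    · rw [ofPred_forall]
      exact isClosed_iInter fun k => isClosed_le (by fun_prop) continuous_const
    · exact isBounded_iff_forall_norm_le.2 ⟨_, fun z hz => norm_le_of_mem hn (hs hz)⟩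
  exact ((hh.mono hs).integrableOn_compact hc).mono_set fun z hz k => (hz k).le

theorem smul_mem {U : Set ℂ} (hc : Convex ℝ U) (h0 : (0 : ℂ) ∈ U) {z : ℂ} (hz : z ∈ U) {t : ℝ}
    (ht : t ∈ uIcc (0 : ℝ) 1) : (t : ℂ) * z ∈ U := by
  rw [uIcc_of_le zero_le_one] at ht
  simpa using hc h0 hz (sub_nonneg.2 ht.2) ht.1 (by ring)

theorem deriv_line {g : ℂ → ℂ} {d a b : ℂ} {t : ℝ} (hg : HasDerivAt g d (a + t * b)) :
    HasDerivAt (fun t : ℝ => g (a + t * b)) (d * b) t := by
  have h1 : HasDerivAt (fun u : ℂ => g (a + u * b)) (d * b) (t : ℂ) := by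
    have := hg.comp (t : ℂ) (((hasDerivAt_id (t : ℂ)).mul_const b).const_add a)
    simpa [Function.comp_def] using this
  exact h1.comp_ofReal

theorem deriv_ray {g : ℂ → ℂ} {d b : ℂ} {t : ℝ} (hg : HasDerivAt g d (t * b)) :
    HasDerivAt (fun t : ℝ => g (t * b)) (d * b) t := by
  simpa using deriv_line (a := 0) (by simpa using hg)

theorem exists_prims {U : Set ℂ} (hU : IsOpen U) (hc : Convex ℝ U) (h0 : (0 : ℂ) ∈ U) {h : ℂ → ℂ}
    (hh : DifferentiableOn ℂ h U) : ∃ H1 H : ℂ → ℂ, (∀ z ∈ U, HasDerivAt H1 (h z) z) ∧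
      (∀ z ∈ U, HasDerivAt H (H1 z) z) ∧ ∀ z ∈ U, H z = z ^ 2 * rad h z := by
  obtain ⟨G1, hG1⟩ := exists_primitive_convex hU hc hh
  have h1 : ∀ z ∈ U, HasDerivAt (fun z => G1 z - G1 0) (h z) z := fun z hz => (hG1 z hz).sub_const _
  obtain ⟨G, hG⟩ := exists_primitive_convex hU hc (f := fun z => G1 z - G1 0)
    (fun z hz => (h1 z hz).differentiableAt.differentiableWithinAt)
  refine ⟨_, fun z => G z - G 0, h1, fun z hz => (hG z hz).sub_const _, fun z hz => ?_⟩
  have hd : ∀ t ∈ uIcc (0 : ℝ) 1, HasDerivAt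
      (fun t : ℝ => (1 - (t : ℂ)) * (z * (G1 (t * z) - G1 0)) + G (t * z))
      (z ^ 2 * ((1 - (t : ℂ)) * h (t * z))) t := fun t ht => by
    have a1 := (deriv_ray (h1 _ (smul_mem hc h0 hz ht))).const_mul z
    have a2 := deriv_ray (hG _ (smul_mem hc h0 hz ht))
    have a3 : HasDerivAt (fun t : ℝ => 1 - (t : ℂ)) (-1) t := by
      simpa using (ofRealCLM.hasDerivAt (x := t)).const_sub 1
    exact ((a3.mul a1).add a2).congr_deriv (by ring)
  have hcn : ContinuousOn (fun t : ℝ => z ^ 2 * ((1 - (t : ℂ)) * h (t * z))) (uIcc 0 1) :=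
    continuousOn_const.mul (ContinuousOn.mul (by fun_prop)
      (hh.continuousOn.comp (by fun_prop) fun t ht => smul_mem hc h0 hz ht))
  rw [rad, ← intervalIntegral.integral_const_mul,
    intervalIntegral.integral_eq_sub_of_hasDerivAt hd hcn.intervalIntegrable]
  simp

theorem fubini_tri (hn : 3 ≤ n) {ρ : ℝ} (hρ : 0 < ρ) {f : ℂ → ℂ} (hf : IntegrableOn f (Tri n ρ)) :
    ∫ z in Tri n ρ, f z = ∫ x in (0 : ℝ)..ρ, ∫ y in (-(T n * x))..(T n * x), f (x + y * I) := by
  have hT := T_pos hn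
  have hmp := volume_preserving_equiv_real_prod.symm
  have hme := (measurableEquivRealProd.symm).measurableEmbedding
  have hm : MeasurableSet (measurableEquivRealProd.symm ⁻¹' Tri n ρ) :=
    hme.measurable (isOpen_Tri ρ).measurableSet
  have hf' := (integrable_indicator_iff hm).2 ((hmp.integrableOn_comp_preimage hme).2 hf)
  rw [← hmp.setIntegral_preimage_emb hme, ← integral_indicator hm]
  rw [Measure.volume_eq_prod] at hf' ⊢
  rw [show (fun p => f (measurableEquivRealProd.symm p)) = f ∘ measurableEquivRealProd.symm from rfl,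
    integral_prod _ hf', intervalIntegral.integral_of_le hρ.le, integral_Ioc_eq_integral_Ioo,
    ← integral_indicator measurableSet_Ioo]
  refine integral_congr_ae (Eventually.of_forall fun x => ?_)
  have hmem : ∀ y : ℝ, (x, y) ∈ measurableEquivRealProd.symm ⁻¹' Tri n ρ ↔
      x < ρ ∧ |y| < T n * x := fun y => by simp [Tri]
  by_cases hx : x ∈ Ioo 0 ρ
  · have h1 : 0 < T n * x := mul_pos hT hx.1
    simp only [indicator_of_mem hx]
    rw [intervalIntegral.integral_of_le (by linarith), integral_Ioc_eq_integral_Ioo,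
      ← integral_indicator measurableSet_Ioo]
    refine integral_congr_ae (Eventually.of_forall fun y => ?_)
    by_cases hy : y ∈ Ioo (-(T n * x)) (T n * x)
    · simp only [indicator_of_mem hy, indicator_of_mem ((hmem y).2 ⟨hx.2, abs_lt.2 hy⟩),
        Function.comp_apply, measurableEquivRealProd_symm_apply, mk_eq_add_mul_I]
    · simp only [indicator_of_notMem hy,
        indicator_of_notMem (fun h => hy (abs_lt.1 ((hmem y).1 h).2))]
  · have : ∀ y : ℝ, (x, y) ∉ measurableEquivRealProd.symm ⁻¹' Tri n ρ := fun y h =>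
      hx ⟨pos_of_mul_pos_left' ((abs_nonneg _).trans_lt ((hmem y).1 h).2) hT, ((hmem y).1 h).1⟩
    simp only [indicator_of_notMem hx, indicator_of_notMem (this _), integral_zero]

theorem tri_int (hn : 3 ≤ n) {ρ ρ' : ℝ} (hρ : 0 < ρ) (hρ' : ρ < ρ') {h : ℂ → ℂ}
    (hh : DifferentiableOn ℂ h (Pol n ρ')) : ∫ z in Tri n ρ, h z = -I * ρ ^ 2 *
      (vx n * rad h (ρ * vx n) - (1 - T n * I) * rad h (ρ * (1 - T n * I))) := by
  have hT := T_pos hn
  obtain ⟨H1, H, h1, h2, h3⟩ := exists_prims (isOpen_Pol hn ρ') (convex_Pol ρ')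
    (zero_mem_Pol (hρ.trans hρ')) hh
  have hmem : ∀ x ∈ uIcc 0 ρ, ∀ y : ℝ, |y| ≤ T n * x → (x : ℂ) + y * I ∈ Pol n ρ' := by
    intro x hx y hy
    rw [uIcc_of_le hρ.le] at hx
    exact mem_Pol_of hn (by simpa using hx.2.trans_lt hρ') (by simpa using hy)
  have hx0 : ∀ x ∈ uIcc 0 ρ, 0 ≤ T n * x := fun x hx => by
    rw [uIcc_of_le hρ.le] at hx
    exact mul_nonneg hT.le hx.1
  have m1 : ∀ x ∈ uIcc 0 ρ, (x : ℂ) * vx n ∈ Pol n ρ' := fun x hx => by
    have := hmem x hx (T n * x) (abs_of_nonneg (hx0 x hx)).le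
    rwa [show (x : ℂ) + (T n * x : ℝ) * I = x * vx n by rw [vx]; push_cast; ring] at this
  have m2 : ∀ x ∈ uIcc 0 ρ, (x : ℂ) * (1 - T n * I) ∈ Pol n ρ' := fun x hx => by
    have := hmem x hx (-(T n * x)) (by rw [abs_neg]; exact (abs_of_nonneg (hx0 x hx)).le)
    rwa [show (x : ℂ) + (-(T n * x) : ℝ) * I = x * (1 - T n * I) by push_cast; ring] at this
  have hv := vx_ne (n := n)
  have hv' : (1 - T n * I : ℂ) ≠ 0 := fun h => by simpa using congrArg Complex.re h
  have c1 : ContinuousOn H1 (Pol n ρ') := fun z hz => (h1 z hz).continuousAt.continuousWithinAt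
  have inner : ∀ x ∈ uIcc 0 ρ, ∫ y in (-(T n * x))..(T n * x), h (x + y * I) =
      -I * (H1 (x * vx n) - H1 (x * (1 - T n * I))) := fun x hx => by
    have hy : ∀ y ∈ uIcc (-(T n * x)) (T n * x), (x : ℂ) + y * I ∈ Pol n ρ' := fun y hy => by
      rw [uIcc_of_le (by linarith [hx0 x hx])] at hy
      exact hmem x hx y (abs_le.2 hy)
    rw [intervalIntegral.integral_eq_sub_of_hasDerivAt (f := fun y : ℝ => -I * H1 (x + y * I))
      (f' := fun y : ℝ => h (x + y * I))
      (fun y hy' => ((deriv_line (h1 _ (hy y hy'))).const_mul (-I)).congr_deriv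
        (by linear_combination (-h (x + y * I)) * I_mul_I))
      (hh.continuousOn.comp (by fun_prop) hy).intervalIntegrable,
      show (x : ℂ) + (T n * x : ℝ) * I = x * vx n by rw [vx]; push_cast; ring,
      show (x : ℂ) + (-(T n * x) : ℝ) * I = x * (1 - T n * I) by push_cast; ring]
    ring
  rw [fubini_tri hn hρ ((integrableOn_Pol hn hρ' hh.continuousOn).mono_set (Tri_subset hn ρ)),
    intervalIntegral.integral_congr inner,
    intervalIntegral.integral_eq_sub_of_hasDerivAt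
      (f := fun x : ℝ => -I * (H (x * vx n) / vx n - H (x * (1 - T n * I)) / (1 - T n * I)))
      (f' := fun x : ℝ => -I * (H1 (x * vx n) - H1 (x * (1 - T n * I))))
      (fun x hx => ((((deriv_ray (h2 _ (m1 x hx))).div_const _).sub
        ((deriv_ray (h2 _ (m2 x hx))).div_const _)).const_mul (-I)).congr_deriv
          (by rw [mul_div_cancel_right₀ _ hv, mul_div_cancel_right₀ _ hv']))
      (continuousOn_const.mul ((c1.comp (by fun_prop) m1).sub
        (c1.comp (by fun_prop) m2))).intervalIntegrable,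
    h3 _ (m1 ρ right_mem_uIcc), h3 _ (m2 ρ right_mem_uIcc), h3 _ (m1 0 left_mem_uIcc),
    h3 _ (m2 0 left_mem_uIcc)]
  generalize (1 - T n * I : ℂ) = u at hv' ⊢
  simp only [ofReal_zero, zero_mul, ne_eq, OfNat.ofNat_ne_zero, not_false_eq_true, zero_pow,
    zero_div, sub_self, mul_zero, sub_zero]
  field_simp

/-- The area integral through the radii to the vertices. -/
theorem davis (hn : 3 ≤ n) {ρ ρ' : ℝ} (hρ : 0 < ρ) (hρ' : ρ < ρ') {h : ℂ → ℂ}
    (hh : DifferentiableOn ℂ h (Pol n ρ')) : ∫ z in Pol n ρ, h z =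
      2 * T n * ρ ^ 2 * ∑ j ∈ Finset.range n, rad h ((zt n)⁻¹ ^ j * (ρ * vx n)) := by
  have hr : ∀ u w : ℂ, rad (fun z => h (u * z)) w = rad h (u * w) := fun u w => by
    simp only [rad, mul_left_comm u]
  have h1 : ∀ j ∈ Finset.range n, ∫ z in Tri n ρ, h ((zt n)⁻¹ ^ j * z) =
      -I * ρ ^ 2 * vx n * rad h ((zt n)⁻¹ ^ j * (ρ * vx n)) +
        I * ρ ^ 2 * (1 - T n * I) * rad h ((zt n)⁻¹ ^ (j + 1) * (ρ * vx n)) := fun j _ => by
    rw [tri_int hn hρ hρ' (h := fun z => h ((zt n)⁻¹ ^ j * z))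
      (hh.comp (by fun_prop) fun z hz => inv_mul_mem_Pol hn hz j), hr, hr,
      show (zt n)⁻¹ ^ (j + 1) * (ρ * vx n) = (zt n)⁻¹ ^ j * (ρ * (1 - T n * I)) by
        rw [← inv_mul_vx hn]; ring]
    ring
  have h2 : ∑ j ∈ Finset.range n, rad h ((zt n)⁻¹ ^ (j + 1) * (ρ * vx n)) =
      ∑ j ∈ Finset.range n, rad h ((zt n)⁻¹ ^ j * (ρ * vx n)) := by
    have a1 := Finset.sum_range_succ (fun j => rad h ((zt n)⁻¹ ^ j * (ρ * vx n))) n
    rw [Finset.sum_range_succ', inv_pow _ n, zt_pow_n hn, inv_one, pow_zero] at a1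
    exact add_right_cancel a1
  rw [split hn (integrableOn_Pol hn hρ' hh.continuousOn), Finset.sum_congr rfl h1,
    Finset.sum_add_distrib, ← Finset.mul_sum, ← Finset.mul_sum, h2, vx]
  linear_combination (-2 * T n * ρ ^ 2 *
    ∑ j ∈ Finset.range n, rad h ((zt n)⁻¹ ^ j * (ρ * (1 + T n * I)))) * I_mul_I

/-- A polar box. -/
def Box (a b c : ℝ) : Set ℂ := {z | ‖z‖ ∈ Ioo a b ∧ arg z ∈ Ioo (-c) c}

theorem measurableSet_Box (a b c : ℝ) : MeasurableSet (Box a b c) :=
  (measurable_norm measurableSet_Ioo).inter (Complex.measurable_arg measurableSet_Ioo)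

theorem polar_box {a b c : ℝ} (ha : 0 ≤ a) (hab : a ≤ b) (hc0 : 0 ≤ c) (hc : c ≤ π) {F : ℂ → ℝ}
    (hF : ContinuousOn F {z | ‖z‖ ∈ Icc a b}) :
    IntervalIntegrable (fun r : ℝ => r * ∫ t in (-c)..c, F (r * e t)) volume a b ∧
      ∫ z in Box a b c, F z = ∫ r in a..b, r * ∫ t in (-c)..c, F (r * e t) := by
  have hcont : ContinuousOn (fun p : ℝ × ℝ => p.1 * F (p.1 * e p.2)) (Icc a b ×ˢ Icc (-c) c) := by
    refine ContinuousOn.mul (by fun_prop) (hF.comp (by unfold e; fun_prop) fun p hp => ?_)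
    rw [mem_ofPred_eq, norm_mul, norm_e, mul_one, Complex.norm_real,
      Real.norm_of_nonneg (ha.trans hp.1.1)]
    exact hp.1
  have hint : IntegrableOn (fun p : ℝ × ℝ => p.1 * F (p.1 * e p.2)) (Ioo a b ×ˢ Ioo (-c) c) :=
    (hcont.integrableOn_compact (isCompact_Icc.prod isCompact_Icc)).mono_set
      (prod_mono Ioo_subset_Icc_self Ioo_subset_Icc_self)
  have hin : ∀ r : ℝ, r * ∫ t in (-c)..c, F (r * e t) = ∫ t in Ioo (-c) c, r * F (r * e t) :=
    fun r => by
      rw [intervalIntegral.integral_of_le (by linarith), integral_Ioc_eq_integral_Ioo,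
        integral_const_mul]
  simp only [hin]
  rw [Measure.volume_eq_prod] at hint
  constructor
  · rw [intervalIntegrable_iff_integrableOn_Ioo_of_le hab]
    rw [IntegrableOn, ← Measure.prod_restrict] at hint
    exact hint.integral_prod_left
  rw [intervalIntegral.integral_of_le hab, integral_Ioc_eq_integral_Ioo,
    ← setIntegral_prod _ hint, ← Measure.volume_eq_prod,
    ← integral_indicator (measurableSet_Box a b c), ← Complex.integral_comp_polarCoord_symm]
  have hsub : Ioo a b ×ˢ Ioo (-c) c ⊆ polarCoord.target := fun p hp =>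
    ⟨ha.trans_lt hp.1.1, by linarith [hp.2.1], by linarith [hp.2.2]⟩
  rw [← inter_eq_right.2 hsub,
    ← setIntegral_indicator (measurableSet_Ioo.prod measurableSet_Ioo)]
  refine setIntegral_congr_fun polarCoord.open_target.measurableSet fun p hp => ?_
  have h1 := Complex.polarCoord.right_inv (x := p) hp
  rw [Complex.polarCoord_apply] at h1
  have h2 : Complex.polarCoord.symm p = p.1 * e p.2 := by
    rw [Complex.polarCoord_symm_apply, e_eq]
  have h3 : Complex.polarCoord.symm p ∈ Box a b c ↔ p ∈ Ioo a b ×ˢ Ioo (-c) c := by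
    conv_rhs => rw [← h1]
    rfl
  by_cases hp' : p ∈ Ioo a b ×ˢ Ioo (-c) c
  · simp only [indicator_of_mem hp', indicator_of_mem (h3.2 hp')]
    rw [h2, smul_eq_mul]
  · simp only [indicator_of_notMem hp', indicator_of_notMem (fun h => hp' (h3.1 h)), smul_zero]

end Pool.Agent.Lib.MP_7c5c90_an.RP
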