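import Pool.Agent.Lib.MP_7c5c90_an.Basic

/-!
Regular polygons: geometry and the splitting into triangles.
-/

set_option autoImplicit false

open MeasureTheory Set Complex Filter Topology
open scoped Real

namespace Pool.Agent.Lib.MP_7c5c90_an.RP

/-- The point of the unit circle with angle `t`. -/
noncomputable def e (t : ℝ) : ℂ := Complex.exp (t * I)

theorem e_add (s t : ℝ) : e (s + t) = e s * e t := by
  simp only [e, ← Complex.exp_add]
  congr 1
  push_cast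
  ring

theorem e_re (t : ℝ) : (e t).re = Real.cos t := Complex.exp_ofReal_mul_I_re t

theorem e_im (t : ℝ) : (e t).im = Real.sin t := Complex.exp_ofReal_mul_I_im t

theorem norm_e (t : ℝ) : ‖e t‖ = 1 := Complex.norm_exp_ofReal_mul_I t

theorem e_zero : e 0 = 1 := by simp [e]

theorem e_ne (t : ℝ) : e t ≠ 0 := Complex.exp_ne_zero _

theorem e_pow (t : ℝ) (k : ℕ) : e t ^ k = e (k * t) := by
  simp only [e, ← Complex.exp_nat_mul]
  congr 1
  push_cast
  ring

theorem e_neg (t : ℝ) : e (-t) = (e t)⁻¹ := by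
  simp only [e, ← Complex.exp_neg]
  congr 1
  push_cast
  ring

theorem e_eq (t : ℝ) : e t = Real.cos t + Real.sin t * I := by
  apply Complex.ext <;> simp [e_re, e_im, -ofReal_cos, -ofReal_sin]

/-- Half the central angle. -/
noncomputable def th (n : ℕ) : ℝ := π / n

/-- The root of unity. -/
noncomputable def zt (n : ℕ) : ℂ := e (2 * th n)

/-- Half the side of the polygon of inradius one. -/
noncomputable def T (n : ℕ) : ℝ := Real.tan (th n)

/-- A vertex of the polygon of inradius one. -/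
noncomputable def vx (n : ℕ) : ℂ := 1 + T n * I

/-- The open regular polygon of inradius `ρ`. -/
def Pol (n : ℕ) (ρ : ℝ) : Set ℂ := {z | ∀ k : ℕ, (zt n ^ k * z).re < ρ}

/-- The triangle spanned by the centre and one side. -/
def Tri (n : ℕ) (ρ : ℝ) : Set ℂ := {z | z.re < ρ ∧ |z.im| < T n * z.re}

theorem pos_of_mul_pos_left' {a b : ℝ} (h : 0 < a * b) (ha : 0 < a) : 0 < b :=
  (mul_pos_iff_of_pos_left ha).1 h

theorem nonneg_of_mul_nonneg_right' {a b : ℝ} (h : 0 ≤ a * b) (ha : 0 < a) : 0 ≤ b :=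
  (mul_nonneg_iff_of_pos_left ha).1 h

variable {n : ℕ}

theorem npos (hn : 3 ≤ n) : (0 : ℝ) < n := by exact_mod_cast (by omega : 0 < n)

theorem th_pos (hn : 3 ≤ n) : 0 < th n := div_pos Real.pi_pos (npos hn)

theorem mul_th (hn : 3 ≤ n) : n * th n = π := by
  have := (npos hn).ne'
  rw [th]
  field_simp

theorem th_le (hn : 3 ≤ n) : 3 * th n ≤ π := by
  have h : (3 : ℝ) ≤ n := by exact_mod_cast hn
  rw [← mul_th hn]
  exact mul_le_mul_of_nonneg_right h (th_pos hn).le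

theorem cos_pos (hn : 3 ≤ n) : 0 < Real.cos (th n) :=
  Real.cos_pos_of_mem_Ioo ⟨by linarith [th_pos hn, Real.pi_pos], by linarith [th_le hn, th_pos hn]⟩

theorem sin_pos (hn : 3 ≤ n) : 0 < Real.sin (th n) :=
  Real.sin_pos_of_pos_of_lt_pi (th_pos hn) (by linarith [th_le hn, th_pos hn])

theorem T_mul (hn : 3 ≤ n) : T n * Real.cos (th n) = Real.sin (th n) :=
  Real.tan_mul_cos (cos_pos hn).ne'

theorem T_pos (hn : 3 ≤ n) : 0 < T n := by
  rw [T, Real.tan_eq_sin_div_cos]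
  exact div_pos (sin_pos hn) (cos_pos hn)

theorem zt_prim (hn : 3 ≤ n) : IsPrimitiveRoot (zt n) n := by
  have : zt n = Complex.exp (2 * π * I / n) := by
    simp only [zt, e, th]
    congr 1
    push_cast
    ring
  rw [this]
  exact Complex.isPrimitiveRoot_exp n (by omega)

theorem zt_pow_n (hn : 3 ≤ n) : zt n ^ n = 1 := (zt_prim hn).pow_eq_one

theorem norm_zt (k : ℕ) : ‖zt n ^ k‖ = 1 := by rw [norm_pow, zt, norm_e, one_pow]

theorem zt_ne : zt n ≠ 0 := e_ne _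

theorem vx_mul (hn : 3 ≤ n) : vx n * Real.cos (th n) = e (th n) := by
  rw [e_eq, ← T_mul hn, vx]
  push_cast
  ring

theorem vx_ne : vx n ≠ 0 := fun h => by simpa [vx] using congrArg Complex.re h

theorem normSq_vx : ‖vx n‖ ^ 2 = 1 + T n ^ 2 := by
  rw [← Complex.normSq_eq_norm_sq, Complex.normSq_apply]
  simp [vx, sq]

theorem inv_mul_vx (hn : 3 ≤ n) : (zt n)⁻¹ * vx n = 1 - T n * I := by
  have hc : ((Real.cos (th n) : ℝ) : ℂ) ≠ 0 := by exact_mod_cast (cos_pos hn).ne'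
  refine mul_right_cancel₀ hc ?_
  rw [mul_assoc, vx_mul hn, zt, ← e_neg, ← e_add, show -(2 * th n) + th n = -th n by ring, e_eq,
    Real.cos_neg, Real.sin_neg, ← T_mul hn]
  push_cast
  ring

theorem two_T (hn : 3 ≤ n) : 2 * T n = Real.sin (2 * th n) * (1 + T n ^ 2) := by
  have h1 := T_mul hn
  have h2 := Real.sin_sq_add_cos_sq (th n)
  rw [Real.sin_two_mul, ← h1] at *
  linear_combination (-2 * T n) * h2

theorem key1 (hn : 3 ≤ n) {k : ℕ} (h0 : 0 < k) (hk : k < n) : ∃ s : ℝ, 0 < s ∧ ∀ z : ℂ,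
    s * (T n * z.re - |z.im|) ≤ T n * (z.re - (zt n ^ k * z).re) := by
  have ht := th_pos hn
  have h1 : th n ≤ k * th n := le_mul_of_one_le_left ht.le (by exact_mod_cast h0)
  have h2 : k * th n + th n ≤ π := by
    have : (k : ℝ) + 1 ≤ n := by exact_mod_cast hk
    rw [← mul_th hn]
    nlinarith
  set φ := k * th n with hφ
  have hs : 0 < Real.sin φ := Real.sin_pos_of_pos_of_lt_pi (by linarith) (by linarith)
  have a1 := Real.sin_nonneg_of_nonneg_of_le_pi (x := φ - th n) (by linarith) (by linarith)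
  have a2 := Real.sin_nonneg_of_nonneg_of_le_pi (x := φ + th n) (by linarith) h2
  rw [Real.sin_sub, ← T_mul hn] at a1
  rw [Real.sin_add, ← T_mul hn] at a2
  have hc := cos_pos hn
  have a3 : |T n * Real.cos φ| ≤ Real.sin φ := by
    rw [abs_le]
    constructor
    · refine le_of_mul_le_mul_right ?_ hc
      linarith
    · refine le_of_mul_le_mul_right ?_ hc
      linarith
  refine ⟨2 * Real.sin φ ^ 2, by positivity, fun z => ?_⟩
  have a4 : |T n * Real.cos φ * z.im| ≤ Real.sin φ * |z.im| := by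
    rw [abs_mul]
    exact mul_le_mul_of_nonneg_right a3 (abs_nonneg _)
  have a5 := mul_le_mul_of_nonneg_left (abs_le.1 a4).1 hs.le
  rw [zt, e_pow, show (k : ℝ) * (2 * th n) = 2 * φ by rw [hφ]; ring, mul_re, e_re, e_im,
    Real.sin_two_mul, Real.cos_two_mul, Real.cos_sq']
  nlinarith

theorem key1_le (hn : 3 ≤ n) {z : ℂ} (hz : |z.im| ≤ T n * z.re) (k : ℕ) :
    (zt n ^ k * z).re ≤ z.re := by
  rw [pow_eq_pow_mod k (zt_pow_n hn)]
  rcases Nat.eq_zero_or_pos (k % n) with h | h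
  · simp [h]
  · obtain ⟨s, hs, h1⟩ := key1 hn h (Nat.mod_lt k (by omega))
    have h2 := (mul_nonneg hs.le (sub_nonneg.2 hz)).trans (h1 z)
    exact sub_nonneg.1 (nonneg_of_mul_nonneg_right' h2 (T_pos hn))

theorem key1_lt (hn : 3 ≤ n) {z : ℂ} (hz : |z.im| < T n * z.re) {k : ℕ} (h0 : 0 < k) (hk : k < n) :
    (zt n ^ k * z).re < z.re := by
  obtain ⟨s, hs, h1⟩ := key1 hn h0 hk
  have h2 := (mul_pos hs (sub_pos.2 hz)).trans_le (h1 z)
  exact sub_pos.1 (pos_of_mul_pos_left' h2 (T_pos hn))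

theorem key2 (hn : 3 ≤ n) : ∃ s : ℝ, 0 < s ∧ ∀ z : ℂ,
    z.re - (zt n ^ 1 * z).re = s * (T n * z.re + z.im) ∧
      z.re - (zt n ^ (n - 1) * z).re = s * (T n * z.re - z.im) := by
  have e1 : zt n ^ (n - 1) = e (-(2 * th n)) := by
    rw [e_neg]
    refine eq_inv_of_mul_eq_one_left ?_
    rw [← zt, ← pow_succ, Nat.sub_add_cancel (by omega), zt_pow_n hn]
  refine ⟨2 * Real.sin (th n) * Real.cos (th n), by have := sin_pos hn; have := cos_pos hn; positivity,
    fun z => ?_⟩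
  have h1 := T_mul hn
  rw [e1, pow_one, zt, mul_re, mul_re, e_re, e_im, e_re, e_im, Real.cos_neg, Real.sin_neg,
    Real.sin_two_mul, Real.cos_two_mul, Real.cos_sq']
  constructor
  · linear_combination (-2 * Real.sin (th n) * z.re) * h1
  · linear_combination (-2 * Real.sin (th n) * z.re) * h1

theorem exists_max (hn : 3 ≤ n) (z : ℂ) :
    ∃ j < n, ∀ k : ℕ, (zt n ^ k * z).re ≤ (zt n ^ j * z).re := by
  obtain ⟨j, hj, h⟩ := (Finset.range n).exists_max_image (fun k => (zt n ^ k * z).re)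
    ⟨0, Finset.mem_range.2 (by omega)⟩
  refine ⟨j, Finset.mem_range.1 hj, fun k => ?_⟩
  rw [pow_eq_pow_mod k (zt_pow_n hn)]
  exact h _ (Finset.mem_range.2 (Nat.mod_lt k (by omega)))

theorem Pol_eq (hn : 3 ≤ n) (ρ : ℝ) :
    Pol n ρ = ⋂ k ∈ Finset.range n, {z | (zt n ^ k * z).re < ρ} := by
  ext z
  simp only [Pol, mem_ofPred_eq, mem_iInter, Finset.mem_range]
  refine ⟨fun h k _ => h k, fun h k => ?_⟩
  rw [pow_eq_pow_mod k (zt_pow_n hn)]
  exact h _ (Nat.mod_lt k (by omega))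

theorem isOpen_Pol (hn : 3 ≤ n) (ρ : ℝ) : IsOpen (Pol n ρ) := by
  rw [Pol_eq hn]
  exact isOpen_biInter_finset fun k _ => isOpen_lt (by fun_prop) continuous_const

theorem convex_Pol (ρ : ℝ) : Convex ℝ (Pol n ρ) := by
  rw [Pol, ofPred_forall]
  refine convex_iInter fun k => convex_halfSpace_lt ⟨fun x y => ?_, fun c x => ?_⟩ ρ
  · rw [mul_add, add_re]
  · rw [mul_smul_comm, smul_re]

theorem zero_mem_Pol {ρ : ℝ} (hρ : 0 < ρ) : (0 : ℂ) ∈ Pol n ρ := fun k => by simpa using hρ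

theorem Pol_mono {ρ ρ' : ℝ} (h : ρ ≤ ρ') : Pol n ρ ⊆ Pol n ρ' := fun _ hz k => (hz k).trans_le h

theorem mul_mem_Pol {ρ : ℝ} {z : ℂ} (hz : z ∈ Pol n ρ) (j : ℕ) : zt n ^ j * z ∈ Pol n ρ :=
  fun k => by
    rw [← mul_assoc, ← pow_add]
    exact hz _

theorem inv_pow_eq (hn : 3 ≤ n) (j : ℕ) : (zt n)⁻¹ ^ j = zt n ^ ((n - 1) * j) := by
  rw [pow_mul]
  congr 1
  refine (eq_inv_of_mul_eq_one_left ?_).symm
  rw [← pow_succ, Nat.sub_add_cancel (by omega), zt_pow_n hn]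

theorem inv_mul_mem_Pol (hn : 3 ≤ n) {ρ : ℝ} {z : ℂ} (hz : z ∈ Pol n ρ) (j : ℕ) :
    (zt n)⁻¹ ^ j * z ∈ Pol n ρ := by
  rw [inv_pow_eq hn]
  exact mul_mem_Pol hz _

theorem mem_Pol_of (hn : 3 ≤ n) {ρ : ℝ} {z : ℂ} (h1 : z.re < ρ) (h2 : |z.im| ≤ T n * z.re) :
    z ∈ Pol n ρ := fun k => (key1_le hn h2 k).trans_lt h1

theorem Tri_subset (hn : 3 ≤ n) (ρ : ℝ) : Tri n ρ ⊆ Pol n ρ :=
  fun _ hz => mem_Pol_of hn hz.1 hz.2.le

theorem norm_le_of_mem (hn : 3 ≤ n) {ρ : ℝ} {z : ℂ} (hz : z ∈ Pol n ρ) : ‖z‖ ≤ (1 + T n) * ρ := by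
  obtain ⟨j, -, hj⟩ := exists_max hn z
  obtain ⟨s, hs, h⟩ := key2 hn
  obtain ⟨h1, h2⟩ := h (zt n ^ j * z)
  rw [← mul_assoc, ← pow_add] at h1 h2
  have a1 := nonneg_of_mul_nonneg_right' (h1 ▸ sub_nonneg.2 (hj _)) hs
  have a2 := nonneg_of_mul_nonneg_right' (h2 ▸ sub_nonneg.2 (hj _)) hs
  have hT := T_pos hn
  have a3 : 0 ≤ (zt n ^ j * z).re := nonneg_of_mul_nonneg_right' (by linarith) hT
  have a4 : |(zt n ^ j * z).im| ≤ T n * (zt n ^ j * z).re := abs_le.2 ⟨by linarith, by linarith⟩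
  have a5 := norm_le_abs_re_add_abs_im (zt n ^ j * z)
  rw [norm_mul, norm_zt, one_mul, abs_of_nonneg a3] at a5
  nlinarith [hz j]

theorem isOpen_Tri (ρ : ℝ) : IsOpen (Tri n ρ) :=
  IsOpen.inter (s := {z : ℂ | z.re < ρ}) (t := {z : ℂ | |z.im| < T n * z.re})
    (isOpen_lt (by fun_prop) continuous_const) (isOpen_lt (by fun_prop) (by fun_prop))

theorem mp_mul {u : ℂ} (hu : ‖u‖ = 1) :
    MeasurePreserving (fun z : ℂ => u * z) ∧ MeasurableEmbedding (fun z : ℂ => u * z) :=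
  ⟨(rotation ⟨u, by simpa [Submonoid.unitSphere] using hu⟩).measurePreserving,
    (rotation ⟨u, by simpa [Submonoid.unitSphere] using hu⟩).toHomeomorph.measurableEmbedding⟩

theorem null_line {c : ℂ} (hc : c ≠ 0) : volume {z : ℂ | (c * z).re = 0} = 0 := by
  have := Measure.addHaar_submodule (volume : Measure ℂ)
    (LinearMap.ker (reLm.comp (LinearMap.mulLeft ℝ c))) (fun h => by
      have h1 : c⁻¹ ∈ LinearMap.ker (reLm.comp (LinearMap.mulLeft ℝ c)) := h ▸ Submodule.mem_top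
      simp [mul_inv_cancel₀ hc] at h1)
  exact this

/-- The polygon splits into `n` congruent triangles. -/
theorem split (hn : 3 ≤ n) {ρ : ℝ} {g : ℂ → ℂ} (hg : IntegrableOn g (Pol n ρ)) :
    ∫ z in Pol n ρ, g z = ∑ j ∈ Finset.range n, ∫ z in Tri n ρ, g ((zt n)⁻¹ ^ j * z) := by
  set S : ℕ → Set ℂ := fun j => {z | zt n ^ j * z ∈ Tri n ρ} with hS
  have hcan : ∀ (j : ℕ) (z : ℂ), (zt n)⁻¹ ^ j * (zt n ^ j * z) = z := fun j z => by
    rw [inv_pow, inv_mul_cancel_left₀ (pow_ne_zero _ zt_ne)]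
  have hsub : ∀ j, S j ⊆ Pol n ρ := fun j z hz => by
    rw [← hcan j z]
    exact inv_mul_mem_Pol hn (Tri_subset hn ρ hz) j
  have hlt : ∀ j k, j < k → k < n → Disjoint (S j) (S k) := fun j k hjk hk => by
    refine Set.disjoint_left.2 fun z h1 h2 => ?_
    have a1 := key1_lt hn h1.2 (k := k - j) (by omega) (by omega)
    have a2 := key1_le hn h2.2.le (n - k + j)
    rw [← mul_assoc, ← pow_add] at a1 a2
    rw [show k - j + j = k by omega] at a1
    rw [show n - k + j + k = n + j by omega, pow_add, zt_pow_n hn, one_mul] at a2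
    exact absurd a1 (not_lt.2 a2)
  have hae : Pol n ρ =ᵐ[volume] ⋃ j ∈ Finset.range n, S j := by
    have h0 : ∀ᵐ z : ℂ, ∀ j k : ℕ, zt n ^ j ≠ zt n ^ k → (zt n ^ j * z).re ≠ (zt n ^ k * z).re := by
      refine ae_all_iff.2 fun j => ae_all_iff.2 fun k => ?_
      by_cases h : zt n ^ j = zt n ^ k
      · exact Eventually.of_forall fun z h' => absurd h h'
      · filter_upwards [compl_mem_ae_iff.2 (null_line (sub_ne_zero.2 h))] with z hz _ h'
        exact hz (by simp only [mem_ofPred_eq, sub_mul, sub_re, h', sub_self])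
    filter_upwards [h0] with z hz
    refine propext ⟨fun hP => ?_, fun hU => ?_⟩
    · obtain ⟨j, hj, hm⟩ := exists_max hn z
      obtain ⟨s, hs, h⟩ := key2 hn
      obtain ⟨h1, h2⟩ := h (zt n ^ j * z)
      rw [← mul_assoc, ← pow_add] at h1 h2
      have hne : ∀ k, 0 < k → k < n → (zt n ^ (k + j) * z).re < (zt n ^ j * z).re := by
        intro k h0 hk
        refine lt_of_le_of_ne (hm _) (hz _ _ fun h' => ?_)
        rw [pow_add, mul_eq_right₀ (pow_ne_zero _ zt_ne)] at h'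
        exact (zt_prim hn).pow_ne_one_of_pos_of_lt h0.ne' hk h'
      have a1 := pos_of_mul_pos_left' (h1 ▸ sub_pos.2 (hne 1 (by omega) (by omega))) hs
      have a2 := pos_of_mul_pos_left' (h2 ▸ sub_pos.2 (hne (n - 1) (by omega) (by omega))) hs
      exact mem_iUnion₂.2 ⟨j, Finset.mem_range.2 hj, hP j, abs_lt.2 ⟨by linarith, by linarith⟩⟩
    · obtain ⟨j, -, hj⟩ := mem_iUnion₂.1 hU
      exact hsub j hj
  rw [setIntegral_congr_set hae, integral_biUnion_finset (s := S) _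
    (fun j _ => ((isOpen_Tri ρ).preimage (f := fun z => zt n ^ j * z)
      (by fun_prop)).measurableSet) ?_
    (fun j _ => hg.mono_set (hsub j))]
  · refine Finset.sum_congr rfl fun j _ => ?_
    have := (mp_mul (norm_zt (n := n) j)).1.setIntegral_preimage_emb (mp_mul (norm_zt j)).2
      (fun z => g ((zt n)⁻¹ ^ j * z)) (Tri n ρ)
    simp only [hcan] at this
    exact this
  · intro j hj k hk hjk
    rcases lt_or_gt_of_ne hjk with h | h
    · exact hlt j k h (Finset.mem_range.1 hk)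
    · exact (hlt k j h (Finset.mem_range.1 hj)).symm

end Pool.Agent.Lib.MP_7c5c90_an.RP
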