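import Pool.Agent.Lib.MP_7c5c90_an.RP.Upper

/-!
The corner lower bound on the regular polygon.
-/

set_option autoImplicit false

open MeasureTheory Set Complex Filter Topology Metric
open scoped Real

namespace Pool.Agent.Lib.MP_7c5c90_an.RP

variable {n : ℕ}

/-- The pole, just outside a vertex. -/
noncomputable def pole (n : ℕ) (δ : ℝ) : ℂ := (1 + δ : ℝ) * vx n

/-- The test function. -/
noncomputable def test (n : ℕ) (δ : ℝ) (z : ℂ) : ℂ := e (th n) / (pole n δ - z)

theorem differentiableOn_test (δ : ℝ) : DifferentiableOn ℂ (test n δ) (Pol n (1 + δ)) :=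
  DifferentiableOn.div (by fun_prop) (by fun_prop) fun z hz h => by
    have h1 := hz 0
    rw [← sub_eq_zero.1 h] at h1
    simp [pole, vx] at h1

theorem norm_test (δ : ℝ) (z : ℂ) : ‖test n δ z‖ = ‖pole n δ - z‖⁻¹ := by
  rw [test, norm_div, norm_e, one_div]

theorem mem_Box (hn : 3 ≤ n) {δ : ℝ} (h0 : 0 < δ) (h1 : δ ≤ 1) {z : ℂ} (hz : z ∈ Pol n 1) :
    e (-th n) * (pole n δ - z) ∈ Box δ (4 * (1 + T n)) (π / 2 - th n) := by
  have hT := T_pos hn
  have ht := th_pos hn
  have ht' := th_le hn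
  have a0 : ‖e (-th n) * (pole n δ - z)‖ < 4 * (1 + T n) := by
    have b1 := norm_le_of_mem hn hz
    have b2 : ‖vx n‖ ≤ 1 + T n := by
      simpa [vx, abs_of_pos hT] using norm_le_abs_re_add_abs_im (vx n)
    have b3 : ‖pole n δ‖ ≤ 2 * (1 + T n) := by
      rw [pole, norm_mul, Complex.norm_real, Real.norm_of_nonneg (by linarith)]
      exact mul_le_mul (by linarith) b2 (norm_nonneg _) two_pos.le
    rw [norm_mul, norm_e, one_mul]
    linarith [norm_sub_le (pole n δ) z]
  have a1 : δ < (e (th n) * (e (-th n) * (pole n δ - z))).re := by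
    have := hz 0
    rw [← mul_assoc, ← e_add, add_neg_cancel, e_zero, one_mul]
    simp only [pow_zero, one_mul] at this
    simp [pole, vx]
    linarith
  have a2 : δ < (e (-th n) * (e (-th n) * (pole n δ - z))).re := by
    have := inv_mul_mem_Pol hn hz 1 0
    rw [← mul_assoc, ← e_add, show -th n + -th n = -(2 * th n) by ring, e_neg, ← zt, mul_sub, pole,
      mul_left_comm, inv_mul_vx hn, sub_re, re_ofReal_mul]
    simp only [pow_zero, one_mul, pow_one] at this
    simp only [sub_re, one_re, mul_re, ofReal_re, I_re, mul_zero, ofReal_im, I_im, mul_one,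
      sub_self, sub_zero] at this ⊢
    linarith
  generalize e (-th n) * (pole n δ - z) = y at a0 a1 a2
  have a3 : ∀ s, (e s * y).re = ‖y‖ * Real.cos (s + arg y) := fun s => by
    conv_lhs => rw [← norm_mul_exp_arg_mul_I y, ← e, mul_left_comm, ← e_add, re_ofReal_mul, e_re]
  rw [a3] at a1 a2
  have a4 := norm_nonneg y
  refine ⟨⟨a1.trans_le (mul_le_of_le_one_right a4 (Real.cos_le_one _)), a0⟩, ?_, ?_⟩
  · by_contra h
    have := Real.cos_nonpos_of_pi_div_two_le_of_le (x := -(-th n + arg y)) (by linarith)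
      (by linarith [neg_pi_lt_arg y])
    rw [Real.cos_neg] at this
    nlinarith
  · by_contra h
    have := Real.cos_nonpos_of_pi_div_two_le_of_le (x := th n + arg y) (by linarith)
      (by linarith [arg_le_pi y])
    nlinarith

theorem polar_le (hn : 3 ≤ n) {δ : ℝ} (h0 : 0 < δ) (h1 : δ ≤ 1) {φ : ℝ → ℝ} (hφ0 : ∀ r, 0 ≤ φ r)
    (hφ : ContinuousOn φ (Icc δ (4 * (1 + T n)))) :
    ∫ z in Pol n 1, φ ‖pole n δ - z‖ ≤ (π - 2 * th n) * ∫ r in δ..4 * (1 + T n), r * φ r := by
  have hT := T_pos hn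
  have hab : δ ≤ 4 * (1 + T n) := by linarith
  have hc : ContinuousOn (fun y : ℂ => φ ‖y‖) {z | ‖z‖ ∈ Icc δ (4 * (1 + T n))} :=
    hφ.comp continuous_norm.continuousOn fun _ hy => hy
  have hi : IntegrableOn (fun y : ℂ => φ ‖y‖) (Box δ (4 * (1 + T n)) (π / 2 - th n)) :=
    (hc.integrableOn_compact (Metric.isCompact_of_isClosed_isBounded
      (isClosed_Icc.preimage continuous_norm)
      (isBounded_iff_forall_norm_le.2 ⟨_, fun _ hz => hz.2⟩))).mono_set
        fun _ hz => Ioo_subset_Icc_self hz.1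
  have hmp := (mp_mul (norm_e (-th n))).1.comp (Measure.measurePreserving_sub_left volume (pole n δ))
  have hme := (mp_mul (norm_e (-th n))).2.comp (MeasurableEquiv.subLeft (pole n δ)).measurableEmbedding
  have e1 := hmp.setIntegral_preimage_emb hme (fun y : ℂ => φ ‖y‖)
    (Box δ (4 * (1 + T n)) (π / 2 - th n))
  have e2 := (hmp.integrableOn_comp_preimage hme).2 hi
  have e3 := (polar_box h0.le hab (c := π / 2 - th n) (by linarith [om_pos hn])
    (by linarith [th_pos hn, Real.pi_pos]) hc).2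
  have e4 := setIntegral_mono_set e2 (Eventually.of_forall fun _ => hφ0 _)
    (LE.le.eventuallyLE (s := Pol n 1) fun z hz => mem_Box hn h0 h1 hz)
  simp only [Function.comp_apply, norm_mul, norm_e, one_mul] at e1 e4
  refine e4.trans (le_of_eq ?_)
  rw [e1, e3, ← intervalIntegral.integral_const_mul]
  refine intervalIntegral.integral_congr fun r hr => ?_
  rw [uIcc_of_le hab] at hr
  simp only [norm_mul_e (h0.le.trans hr.1), intervalIntegral.integral_const, smul_eq_mul]
  ring

theorem test_sum_le (hn : 3 ≤ n) {δ : ℝ} (h0 : 0 < δ) (h1 : δ ≤ 1) :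
    ∫ z in Pol n 1, ((test n δ z).re ^ 2 + (test n δ z).im ^ 2) ≤
      (π - 2 * th n) * (Real.log (4 * (1 + T n)) - Real.log δ) := by
  have hT := T_pos hn
  have hab : δ ≤ 4 * (1 + T n) := by linarith
  have := polar_le hn h0 h1 (φ := fun r => r⁻¹ ^ 2) (fun r => sq_nonneg _)
    ((continuousOn_id.inv₀ fun r hr => (h0.trans_le hr.1).ne').pow 2)
  rw [intervalIntegral.integral_congr (g := fun r => r⁻¹) (fun r hr => by
      rw [uIcc_of_le hab] at hr
      have := (h0.trans_le hr.1).ne'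
      simp only
      field_simp), integral_inv_of_pos h0 (by linarith), Real.log_div (by positivity) h0.ne'] at this
  refine le_trans (le_of_eq ?_) this
  congr 1
  ext z
  rw [← norm_test, ← Complex.normSq_eq_norm_sq, Complex.normSq_apply]
  ring

theorem test_mean (hn : 3 ≤ n) {δ : ℝ} (h0 : 0 < δ) (h1 : δ ≤ 1) :
    |∫ z in Pol n 1, (test n δ z).re| ≤ π * (4 * (1 + T n)) := by
  have hT := T_pos hn
  have hab : δ ≤ 4 * (1 + T n) := by linarith
  have := polar_le hn h0 h1 (φ := fun r => |r⁻¹|) (fun r => abs_nonneg _)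
    (continuousOn_id.inv₀ fun r hr => (h0.trans_le hr.1).ne').abs
  rw [intervalIntegral.integral_congr (g := fun _ => 1) (fun r hr => by
      rw [uIcc_of_le hab] at hr
      have := h0.trans_le hr.1
      simp only
      rw [abs_of_pos (inv_pos.2 this), mul_inv_cancel₀ this.ne'])] at this
  simp only [← norm_test, abs_norm, intervalIntegral.integral_const, smul_eq_mul, mul_one] at this
  have hi := integrableOn_Pol hn (lt_add_of_pos_right 1 h0) (differentiableOn_test δ).continuousOn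
  refine (norm_integral_le_of_norm_le (f := fun z => (test n δ z).re) hi.norm
    (Eventually.of_forall fun z => abs_re_le_norm (test n δ z))).trans (this.trans ?_)
  exact mul_le_mul (by linarith [th_pos hn]) (by linarith) (by linarith) Real.pi_pos.le

theorem rad_test (hn : 3 ≤ n) (δ : ℝ) (u : ℂ) : rad (fun z => test n δ z ^ 2) (u * ((1 : ℝ) * vx n)) =
    (Real.cos (th n) ^ 2 : ℝ) * ∫ t in (0 : ℝ)..1, (1 - (t : ℂ)) / ((1 + δ : ℝ) - t * u) ^ 2 := by
  rw [rad, ← intervalIntegral.integral_const_mul]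
  congr 1
  ext t
  rw [test, ← vx_mul hn, pole, show ((1 + δ : ℝ) : ℂ) * vx n - t * (u * ((1 : ℝ) * vx n)) =
    vx n * ((1 + δ : ℝ) - t * u) by push_cast; ring, mul_div_mul_left _ _ vx_ne, div_pow]
  push_cast
  ring

theorem test_diff_ge (hn : 3 ≤ n) : ∃ C : ℝ, ∀ δ : ℝ, 0 < δ → δ ≤ 1 →
    Real.sin (2 * th n) * -Real.log δ - C ≤
      ∫ z in Pol n 1, ((test n δ z).re ^ 2 - (test n δ z).im ^ 2) := by
  obtain ⟨m, rfl⟩ : ∃ m, n = m + 1 := ⟨n - 1, by omega⟩
  set μ : ℕ → ℝ := fun j => min 1 (1 - ((zt (m + 1))⁻¹ ^ (j + 1)).re) with hμ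
  refine ⟨Real.sin (2 * th (m + 1)) * (1 + ∑ j ∈ Finset.range m, 1 / μ j ^ 2), fun δ h0 h1 => ?_⟩
  have hd := (differentiableOn_test (n := m + 1) δ).pow 2
  have hi := integrableOn_Pol hn (lt_add_of_pos_right 1 h0) hd.continuousOn
  have e1 := reCLM.integral_comp_comm hi
  have e2 : ∀ z : ℂ, z.re ^ 2 - z.im ^ 2 = (z ^ 2).re := fun z => by simp [sq]
  simp only [reCLM_apply, Pi.pow_apply] at e1
  have e3 := davis hn one_pos (lt_add_of_pos_right 1 h0) (h := fun z => test (m + 1) δ z ^ 2) hd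
  have e4 : Real.sin (2 * th (m + 1)) = 2 * T (m + 1) * Real.cos (th (m + 1)) ^ 2 := by
    rw [Real.sin_two_mul, ← T_mul hn]
    ring
  simp only [e2, e1, e3, rad_test hn, ← Finset.mul_sum]
  rw [← mul_assoc, show (2 * T (m + 1) * (1 : ℝ) ^ 2 * (Real.cos (th (m + 1)) ^ 2 : ℝ) : ℂ) =
    (Real.sin (2 * th (m + 1)) : ℝ) by rw [e4]; push_cast; ring, re_ofReal_mul, ← mul_sub,
    Finset.sum_range_succ', add_re, re_sum]
  refine mul_le_mul_of_nonneg_left ?_ (sin_two_pos hn).le
  have a1 : ∀ j ∈ Finset.range m, -(1 / μ j ^ 2) ≤ (∫ t in (0 : ℝ)..1, (1 - (t : ℂ)) /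
      ((1 + δ : ℝ) - t * (zt (m + 1))⁻¹ ^ (j + 1)) ^ 2).re := fun j hj => by
    have b1 : ((zt (m + 1))⁻¹ ^ (j + 1)).re < 1 := by
      have := key1_lt hn (z := 1) (by simpa using T_pos hn) (k := j + 1) (by omega)
        (by have := Finset.mem_range.1 hj; omega)
      rw [inv_pow, inv_re, Complex.normSq_eq_norm_sq, norm_zt]
      simpa using this
    have b2 : 0 < μ j := lt_min one_pos (sub_pos.2 b1)
    have b3 := intervalIntegral.norm_integral_le_of_norm_le_const (a := 0) (b := 1)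
      (C := 1 / μ j ^ 2) (f := fun t : ℝ => (1 - (t : ℂ)) /
        ((1 + δ : ℝ) - t * (zt (m + 1))⁻¹ ^ (j + 1)) ^ 2) fun t ht => by
      rw [uIoc_of_le zero_le_one] at ht
      have c1 : μ j ≤ 1 := min_le_left _ _
      have c2 : μ j ≤ 1 - ((zt (m + 1))⁻¹ ^ (j + 1)).re := min_le_right _ _
      have c3 := re_le_norm (((1 + δ : ℝ) : ℂ) - t * (zt (m + 1))⁻¹ ^ (j + 1))
      rw [sub_re, re_ofReal_mul, ofReal_re] at c3
      rw [norm_div, norm_pow, show (1 - t : ℂ) = (1 - t : ℝ) by norm_cast, Complex.norm_real,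
        Real.norm_of_nonneg (sub_nonneg.2 ht.2)]
      refine div_le_div₀ zero_le_one (by linarith [ht.1]) (by positivity)
        (pow_le_pow_left₀ b2.le (le_trans ?_ c3) 2)
      nlinarith [ht.1, ht.2]
    rw [sub_zero, abs_one, mul_one] at b3
    exact (neg_le_neg b3).trans (abs_le.1 (abs_re_le_norm _)).1
  have a2 := Finset.sum_le_sum a1
  rw [Finset.sum_neg_distrib] at a2
  have a3 : (∫ t in (0 : ℝ)..1, (1 - (t : ℂ)) / ((1 + δ : ℝ) - t * (zt (m + 1))⁻¹ ^ 0) ^ 2 : ℂ) =
      Complex.ofReal (∫ t in (0 : ℝ)..1, (1 - t) / (1 + δ - t) ^ 2) := by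
    rw [← intervalIntegral.integral_ofReal]
    congr 1
    ext t
    push_cast
    ring
  have hne : ∀ t ∈ uIcc (0 : ℝ) 1, 1 + δ - t ≠ 0 := fun t ht => by
    rw [uIcc_of_le zero_le_one] at ht
    linarith [ht.2]
  have a4 := intervalIntegral.integral_eq_sub_of_hasDerivAt (a := 0) (b := 1)
    (f := fun t : ℝ => -Real.log (1 + δ - t) - δ * (1 + δ - t)⁻¹)
    (f' := fun t : ℝ => (1 - t) / (1 + δ - t) ^ 2) (fun t ht => by
      have c0 := hne t ht
      have c1 := (hasDerivAt_id t).const_sub (1 + δ)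
      refine ((c1.log c0).neg.sub ((c1.inv c0).const_mul δ)).congr_deriv ?_
      simp only [id]
      field_simp
      ring)
    (ContinuousOn.div (by fun_prop) (by fun_prop)
      fun t ht => pow_ne_zero 2 (hne t ht)).intervalIntegrable
  have a5 : 0 ≤ Real.log (1 + δ) := Real.log_nonneg (by linarith)
  have a6 : 0 ≤ δ * (1 + δ)⁻¹ := by positivity
  rw [a3, ofReal_re, a4, add_sub_cancel_left, sub_zero, mul_inv_cancel₀ h0.ne']
  linarith

theorem lower (hn : 3 ≤ n) (Γ : ℝ) (hΓ : ∀ w : ℂ → ℂ, DifferentiableOn ℂ w (Pol n 1) →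
    IntegrableOn (fun z => (w z).re ^ 2) (Pol n 1) →
    IntegrableOn (fun z => (w z).im ^ 2) (Pol n 1) → ∫ z in Pol n 1, (w z).re = 0 →
    ∫ z in Pol n 1, (w z).re ^ 2 ≤ Γ * ∫ z in Pol n 1, (w z).im ^ 2) :
    (π - 2 * th n + Real.sin (2 * th n)) / (π - 2 * th n - Real.sin (2 * th n)) ≤ Γ := by
  have hpi := sub_pos.2 (sin_lt_om hn)
  have hs := sin_two_pos hn
  have hω := om_pos hn
  have : IsFiniteMeasure (volume.restrict (Pol n 1)) :=
    isFiniteMeasure_restrict.2 (volume_Pol_lt_top hn 1).ne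
  have hV : 0 < volume.real (Pol n 1) := ENNReal.toReal_pos
    ((isOpen_Pol hn 1).measure_pos volume ⟨0, zero_mem_Pol one_pos⟩).ne' (volume_Pol_lt_top hn 1).ne
  have hconst : ∀ c : ℝ, ∫ _ in Pol n 1, c = volume.real (Pol n 1) * c := fun c => by
    rw [setIntegral_const, smul_eq_mul]
  obtain ⟨C, hC⟩ := test_diff_ge hn
  have hA := fun δ => test_sum_le hn (δ := δ)
  have hM := fun δ => test_mean hn (δ := δ)
  generalize π * (4 * (1 + T n)) = D at hM
  generalize Real.log (4 * (1 + T n)) = B at hA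
  generalize Real.sin (2 * th n) = s at *
  generalize π - 2 * th n = ω at *
  generalize volume.real (Pol n 1) = V at *
  set G : ℝ := max Γ 1 with hG
  have hG1 : 1 ≤ G := le_max_right _ _
  have main : ∀ L : ℝ, 0 ≤ L → L * ((ω + s) - G * (ω - s)) ≤
      2 * (D ^ 2 / V) + (G - 1) * (ω * B) + (1 + G) * C := by
    intro L hL
    have hδ : 0 < Real.exp (-L) := Real.exp_pos _
    have hδ1 : Real.exp (-L) ≤ 1 := Real.exp_le_one_iff.2 (by linarith)
    have hA := hA _ hδ hδ1
    have hB := hC _ hδ hδ1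
    have hM := hM _ hδ hδ1
    rw [Real.log_exp] at hA hB
    generalize Real.exp (-L) = δ at *
    have hc := (differentiableOn_test (n := n) δ).continuousOn
    have hlt := lt_add_of_pos_right 1 hδ
    have i0 : IntegrableOn (fun z => (test n δ z).re) (Pol n 1) :=
      integrableOn_Pol hn hlt (continuous_re.comp_continuousOn hc)
    have i1 : IntegrableOn (fun z => (test n δ z).re ^ 2) (Pol n 1) :=
      integrableOn_Pol hn hlt ((continuous_re.comp_continuousOn hc).pow 2)
    have i2 : IntegrableOn (fun z => (test n δ z).im ^ 2) (Pol n 1) :=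
      integrableOn_Pol hn hlt ((continuous_im.comp_continuousOn hc).pow 2)
    rw [integral_add i1 i2] at hA
    rw [integral_sub i1 i2] at hB
    set m : ℝ := (∫ z in Pol n 1, (test n δ z).re) / V with hm
    have hI : ∫ z in Pol n 1, (test n δ z).re = V * m := by rw [hm]; field_simp
    have i3 : IntegrableOn (fun z => (test n δ z).re ^ 2 - 2 * m * (test n δ z).re) (Pol n 1) :=
      i1.sub (i0.const_mul _)
    have e1 : ∀ z, (test n δ z - m).re ^ 2 =
        (test n δ z).re ^ 2 - 2 * m * (test n δ z).re + m ^ 2 := by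
      intro z; simp; ring
    have h := hΓ (fun z => test n δ z - m)
      (((differentiableOn_test δ).mono (Pol_mono hlt.le)).sub_const _)
      (by simp only [e1]; exact i3.add (integrable_const _))
      (by simpa using i2)
      (by
        simp only [sub_re, ofReal_re]
        rw [integral_sub i0 (integrable_const _), hconst, hI, sub_self])
    simp only [e1, sub_im, ofReal_im, sub_zero] at h
    rw [integral_add i3 (integrable_const _), integral_sub i1 (i0.const_mul _),
      integral_const_mul, hconst] at h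
    have hg0 : 0 ≤ ∫ z in Pol n 1, (test n δ z).im ^ 2 := integral_nonneg fun _ => sq_nonneg _
    have h2 := mul_le_mul_of_nonneg_right (le_max_left Γ 1) hg0
    rw [hI] at h hM
    have hm2 : V * m ^ 2 ≤ D ^ 2 / V := by
      rw [le_div_iff₀ hV]
      have := pow_le_pow_left₀ (abs_nonneg _) hM 2
      rw [sq_abs] at this
      linarith
    generalize ∫ z in Pol n 1, (test n δ z).re ^ 2 = X at *
    generalize ∫ z in Pol n 1, (test n δ z).im ^ 2 = Y at *
    have h4 := mul_le_mul_of_nonneg_right hA (sub_nonneg.2 hG1)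
    have h5 := mul_le_mul_of_nonneg_right hB (show 0 ≤ 1 + G by linarith)
    linarith
  have hk : (ω + s) - G * (ω - s) ≤ 0 := by
    by_contra hk
    push Not at hk
    have h := main (|2 * (D ^ 2 / V) + (G - 1) * (ω * B) + (1 + G) * C| /
      ((ω + s) - G * (ω - s)) + 1) (by positivity)
    rw [add_mul, div_mul_cancel₀ _ hk.ne'] at h
    linarith [le_abs_self (2 * (D ^ 2 / V) + (G - 1) * (ω * B) + (1 + G) * C)]
  rw [div_le_iff₀ hpi]
  rcases le_total Γ 1 with h | h
  · rw [hG, max_eq_right h] at hk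
    linarith
  · rw [hG, max_eq_left h] at hk
    linarith

end Pool.Agent.Lib.MP_7c5c90_an.RP
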