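import Pool.Agent.Lib.MP_7c5c90_an.RP.Davis

/-!
The Schwarz-Christoffel map of the disc into the regular polygon.
-/

set_option autoImplicit false

open MeasureTheory Set Complex Filter Topology Metric
open scoped Real

namespace Pool.Agent.Lib.MP_7c5c90_an.RP

variable {n : ℕ}

/-- The derivative of the map. -/
noncomputable def fd (n : ℕ) (s : ℂ) : ℂ := Complex.exp ((-(2 / n) : ℝ) * Complex.log (1 - s ^ n))

/-- The map. -/
noncomputable def sc (n : ℕ) (w : ℂ) : ℂ := ∫ t in (0 : ℝ)..1, w * fd n (t * w)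

/-- The plane without `n` rays. -/
def Us (n : ℕ) : Set ℂ := {w | 1 - w ^ n ∈ slitPlane}

/-- The derivative on the real axis. -/
noncomputable def fdr (n : ℕ) (x : ℝ) : ℝ := Real.exp (-(2 / n) * Real.log (1 - x ^ n))

/-- The map on the real axis. -/
noncomputable def fr (n : ℕ) (x : ℝ) : ℝ := (sc n x).re

theorem isOpen_Us : IsOpen (Us n) :=
  isOpen_slitPlane.preimage (f := fun w : ℂ => 1 - w ^ n) (by fun_prop)

theorem Us_star : ∀ z ∈ Us n, ∀ t : ℝ, t ∈ Icc (0 : ℝ) 1 → (t : ℂ) * z ∈ Us n := by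
  intro z hz t ht
  have h0 : 0 ≤ t ^ n := pow_nonneg ht.1 n
  have h1 : t ^ n ≤ 1 := pow_le_one₀ ht.1 ht.2
  have := starConvex_one_slitPlane hz (sub_nonneg.2 h1) h0 (by ring)
  change 1 - ((t : ℂ) * z) ^ n ∈ slitPlane
  convert this using 1
  simp only [real_smul]
  push_cast
  ring

theorem differentiableAt_fd {z : ℂ} (hz : z ∈ Us n) : DifferentiableAt ℂ (fd n) z :=
  ((DifferentiableAt.clog (f := fun w : ℂ => 1 - w ^ n) (x := z) (by fun_prop) hz).const_mul
    _).cexp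

theorem hasDerivAt_sc {z : ℂ} (hz : z ∈ Us n) : HasDerivAt (sc n) (fd n z) z :=
  hasDerivAt_radial isOpen_Us Us_star
    (fun _ hw => (differentiableAt_fd hw).differentiableWithinAt) hz

theorem re_pos (hn : 3 ≤ n) {z : ℂ} (hz : ‖z‖ < 1) : 0 < (1 - z ^ n).re := by
  have h1 := re_le_norm (z ^ n)
  have h2 : ‖z‖ ^ n < 1 := pow_lt_one₀ (norm_nonneg _) hz (by omega)
  rw [norm_pow] at h1
  rw [sub_re, one_re]
  linarith

theorem mem_Us (hn : 3 ≤ n) {z : ℂ} (hz : ‖z‖ < 1) : z ∈ Us n := Or.inl (re_pos hn hz)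

theorem fd_root {u : ℂ} (hu : u ^ n = 1) (s : ℂ) : fd n (u * s) = fd n s := by
  rw [fd, fd, mul_pow, hu, one_mul]

theorem sc_root {u : ℂ} (hu : u ^ n = 1) (w : ℂ) : sc n (u * w) = u * sc n w := by
  rw [sc, sc, ← intervalIntegral.integral_const_mul]
  congr 1
  ext t
  rw [mul_left_comm (t : ℂ), fd_root hu, mul_assoc]

theorem two_div_lt (hn : 3 ≤ n) : (2 : ℝ) / n < 1 := by
  rw [div_lt_one (npos hn)]
  exact_mod_cast (by omega : 2 < n)

theorem norm_fd_le (hn : 3 ≤ n) {w : ℂ} (hw : ‖w‖ ≤ 1) {t : ℝ} (h0 : 0 ≤ t) (h1 : t < 1) :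
    ‖fd n (t * w)‖ ≤ (1 - t) ^ (-(2 / n : ℝ)) := by
  have a1 : ‖(t : ℂ) * w‖ ≤ t := by
    rw [norm_mul, Complex.norm_real, Real.norm_of_nonneg h0]
    exact mul_le_of_le_one_right h0 hw
  have a2 : ‖((t : ℂ) * w) ^ n‖ ≤ t := by
    rw [norm_pow]
    exact (pow_le_of_le_one (norm_nonneg _) (a1.trans h1.le) (by omega)).trans a1
  have a3 := norm_sub_norm_le (1 : ℂ) (((t : ℂ) * w) ^ n)
  rw [norm_one] at a3
  rw [fd, Complex.norm_exp, re_ofReal_mul, Complex.log_re, mul_comm,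
    ← Real.rpow_def_of_pos (by linarith)]
  exact Real.rpow_le_rpow_of_nonpos (by linarith) (by linarith)
    (neg_nonpos.2 (div_nonneg two_pos.le (npos hn).le))

theorem continuousOn_sc (hn : 3 ≤ n) : ContinuousOn (sc n) (closedBall 0 1) := by
  intro z hz
  have hne : ∀ᵐ t : ℝ, t ≠ 1 := compl_mem_ae_iff.2 (measure_singleton 1)
  have hlt : ∀ w ∈ closedBall (0 : ℂ) 1, ∀ t : ℝ, 0 ≤ t → t < 1 → ‖(t : ℂ) * w‖ < 1 := by
    intro w hw t h0 h1
    rw [norm_mul, Complex.norm_real, Real.norm_of_nonneg h0]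
    exact (mul_le_of_le_one_right h0 (mem_closedBall_zero_iff.1 hw)).trans_lt h1
  refine intervalIntegral.continuousWithinAt_of_dominated_interval
    (bound := fun t => (1 - t) ^ (-(2 / n : ℝ))) ?_ ?_ ?_ ?_
  · refine Eventually.of_forall fun w => Measurable.aestronglyMeasurable ?_
    unfold fd
    exact measurable_const.mul (Complex.measurable_exp.comp (measurable_const.mul
      (Complex.measurable_log.comp (by fun_prop))))
  · filter_upwards [self_mem_nhdsWithin] with w hw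
    filter_upwards [hne] with t ht ht'
    rw [uIoc_of_le zero_le_one] at ht'
    rw [norm_mul]
    exact (mul_le_of_le_one_left (norm_nonneg _) (mem_closedBall_zero_iff.1 hw)).trans
      (norm_fd_le hn (mem_closedBall_zero_iff.1 hw) ht'.1.le (lt_of_le_of_ne ht'.2 ht))
  · have := (intervalIntegral.intervalIntegrable_rpow' (a := 1) (b := 0) (r := -(2 / n : ℝ))
      (by linarith [two_div_lt hn])).comp_sub_left 1
    simpa using this
  · filter_upwards [hne] with t ht ht'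
    rw [uIoc_of_le zero_le_one] at ht'
    refine ContinuousAt.continuousWithinAt (continuousAt_id.mul ?_)
    exact ContinuousAt.comp (f := fun w : ℂ => (t : ℂ) * w) (differentiableAt_fd
      (mem_Us hn (hlt z hz t ht'.1.le (lt_of_le_of_ne ht'.2 ht)))).continuousAt (by fun_prop)

theorem fd_re_pos (hn : 3 ≤ n) {z : ℂ} (hz : ‖z‖ < 1) : 0 < (fd n z).re := by
  have h1 := abs_lt.1 (Complex.abs_arg_lt_pi_div_two_iff.2 (Or.inl (re_pos hn hz)))
  have h2 := two_div_lt hn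
  have h3 : (0 : ℝ) < 2 / n := div_pos two_pos (npos hn)
  rw [fd, Complex.exp_re, im_ofReal_mul, Complex.log_im]
  refine mul_pos (Real.exp_pos _) (Real.cos_pos_of_mem_Ioo ⟨?_, ?_⟩)
  · nlinarith [Real.pi_pos]
  · nlinarith [Real.pi_pos]

theorem injOn_sc (hn : 3 ≤ n) : InjOn (sc n) (ball 0 1) := by
  intro a ha b hb hab
  by_contra hne
  have hd0 : b - a ≠ 0 := sub_ne_zero.2 (Ne.symm hne)
  have hmem : ∀ t ∈ Icc (0 : ℝ) 1, ‖a + (t : ℂ) * (b - a)‖ < 1 := fun t ht => by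
    simpa using (convex_ball (0 : ℂ) 1).add_smul_sub_mem ha hb ht
  have hd : ∀ t ∈ Icc (0 : ℝ) 1,
      HasDerivAt (fun t : ℝ => (sc n (a + (t : ℂ) * (b - a)) / (b - a)).re)
        (fd n (a + (t : ℂ) * (b - a))).re t := fun t ht =>
    reCLM.hasFDerivAt.comp_hasDerivAt t
      (((deriv_line (hasDerivAt_sc (mem_Us hn (hmem t ht)))).div_const (b - a)).congr_deriv
        (mul_div_cancel_right₀ _ hd0))
  have hm : StrictMonoOn (fun t : ℝ => (sc n (a + (t : ℂ) * (b - a)) / (b - a)).re) (Icc 0 1) := by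
    refine strictMonoOn_of_deriv_pos (convex_Icc 0 1)
      (fun s hs => (hd s hs).continuousAt.continuousWithinAt) fun t ht => ?_
    rw [(hd t (interior_subset ht)).deriv]
    exact fd_re_pos hn (hmem t (interior_subset ht))
  have := hm (left_mem_Icc.2 zero_le_one) (right_mem_Icc.2 zero_le_one) zero_lt_one
  simp [hab] at this

theorem fd_real {x : ℝ} (h0 : 0 ≤ x) (h1 : x ≤ 1) : fd n x = fdr n x := by
  rw [fd, fdr, ofReal_exp, ofReal_mul, Complex.ofReal_log (sub_nonneg.2 (pow_le_one₀ h0 h1))]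
  push_cast
  rfl

theorem sc_real {x : ℝ} (h0 : 0 ≤ x) (h1 : x ≤ 1) : sc n x = fr n x := by
  have : sc n x = ((∫ t in (0 : ℝ)..1, x * fdr n (t * x) : ℝ) : ℂ) := by
    rw [sc, ← intervalIntegral.integral_ofReal]
    refine intervalIntegral.integral_congr fun t ht => ?_
    rw [uIcc_of_le zero_le_one] at ht
    simp only [ofReal_mul]
    rw [← fd_real (mul_nonneg ht.1 h0) (mul_le_one₀ ht.2 h0 h1), ofReal_mul]
  rw [fr, this, ofReal_re]

theorem hasDerivAt_fr (hn : 3 ≤ n) {x : ℝ} (h0 : 0 ≤ x) (h1 : x < 1) :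
    HasDerivAt (fr n) (fdr n x) x := by
  have h := (hasDerivAt_sc (mem_Us hn (z := x)
    (by rwa [Complex.norm_real, Real.norm_of_nonneg h0]))).comp_ofReal
  rw [fd_real h0 h1.le] at h
  exact reCLM.hasFDerivAt.comp_hasDerivAt x h

theorem continuousOn_fr (hn : 3 ≤ n) : ContinuousOn (fr n) (Icc 0 1) :=
  continuous_re.comp_continuousOn ((continuousOn_sc hn).comp continuous_ofReal.continuousOn
    fun x hx => by
      rw [mem_closedBall_zero_iff, Complex.norm_real, Real.norm_of_nonneg hx.1]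
      exact hx.2)

theorem fdr_pos (x : ℝ) : 0 < fdr n x := Real.exp_pos _

theorem fr_zero : fr n 0 = 0 := by simp [fr, sc]

theorem strictMonoOn_fr (hn : 3 ≤ n) : StrictMonoOn (fr n) (Icc 0 1) := by
  refine strictMonoOn_of_deriv_pos (convex_Icc 0 1) (continuousOn_fr hn) fun x hx => ?_
  rw [interior_Icc] at hx
  rw [(hasDerivAt_fr hn hx.1.le hx.2).deriv]
  exact fdr_pos x

theorem K_pos (hn : 3 ≤ n) : 0 < fr n 1 := by
  rw [← fr_zero (n := n)]
  exact strictMonoOn_fr hn (left_mem_Icc.2 zero_le_one) (right_mem_Icc.2 zero_le_one) zero_lt_one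

theorem fr_mem (hn : 3 ≤ n) {x : ℝ} (hx : x ∈ Icc (0 : ℝ) 1) : fr n x ∈ Icc 0 (fr n 1) :=
  ⟨fr_zero (n := n) ▸ (strictMonoOn_fr hn).monotoneOn (left_mem_Icc.2 zero_le_one) hx hx.1,
    (strictMonoOn_fr hn).monotoneOn hx (right_mem_Icc.2 zero_le_one) hx.2⟩

theorem fdr_eq {x : ℝ} (h : x ^ n < 1) : fdr n x = (1 - x ^ n) ^ (-(2 / n : ℝ)) := by
  rw [fdr, Real.rpow_def_of_pos (sub_pos.2 h), mul_comm]

/-- The weight inequality. -/
theorem weight (hn : 3 ≤ n) {s : ℝ} (h0 : 0 < s) (h1 : s < 1) :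
    s ^ n * ((n - 2) * (fr n 1 - fr n (s ^ 2))) ≤ (1 - (s ^ 2) ^ n) * fdr n (s ^ 2) := by
  obtain ⟨m, rfl⟩ : ∃ m, n = m + 3 := ⟨n - 3, by omega⟩
  have hN := npos hn
  have hα : 0 < 1 - (2 / (m + 3 : ℕ) : ℝ) := sub_pos.2 (two_div_lt hn)
  have hlt : ∀ x : ℝ, 0 < x → x < 1 → (x ^ 2) ^ (m + 3) < 1 := fun x a b =>
    pow_lt_one₀ (by positivity) (pow_lt_one₀ a.le b two_ne_zero) (by omega)
  set Ψ : ℝ → ℝ := fun x => (x ^ (m + 3))⁻¹ * (1 - (x ^ 2) ^ (m + 3)) ^ (1 - (2 / (m + 3 : ℕ) : ℝ)) -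
    (((m + 3 : ℕ) : ℝ) - 2) * (fr (m + 3) 1 - fr (m + 3) (x ^ 2)) with hΨ
  have hp : ∀ x : ℝ, 0 < x → x < 1 → (1 - (x ^ 2) ^ (m + 3)) ^ (1 - (2 / (m + 3 : ℕ) : ℝ)) =
      (1 - (x ^ 2) ^ (m + 3)) * fdr (m + 3) (x ^ 2) := fun x a b => by
    rw [fdr_eq (hlt x a b), sub_eq_add_neg (1 : ℝ) (2 / _), Real.rpow_add (sub_pos.2 (hlt x a b)),
      Real.rpow_one]
  have hd : ∀ x : ℝ, 0 < x → x < 1 → ∃ d ≤ 0, HasDerivAt Ψ d x := fun x a b => by
    have a1 := (hasDerivAt_pow (m + 3) x).inv (pow_pos a _).ne'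
    have a2 := (((hasDerivAt_pow 2 x).pow (m + 3)).const_sub 1).rpow_const
      (p := 1 - (2 / (m + 3 : ℕ) : ℝ)) (Or.inl (sub_pos.2 (hlt x a b)).ne')
    have a3 := HasDerivAt.comp (h := fun x : ℝ => x ^ 2) x
      (hasDerivAt_fr hn (pow_nonneg a.le 2) (pow_lt_one₀ a.le b two_ne_zero)) (hasDerivAt_pow 2 x)
    refine ⟨_, ?_, (a1.mul a2).sub ((a3.const_sub _).const_mul _)⟩
    have hD := fdr_pos (n := m + 3) (x ^ 2)
    simp only [Pi.pow_apply, Pi.inv_apply]
    rw [hp x a b, show 1 - (2 / (m + 3 : ℕ) : ℝ) - 1 = -(2 / (m + 3 : ℕ) : ℝ) by ring,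
      ← fdr_eq (hlt x a b)]
    generalize fdr (m + 3) (x ^ 2) = D at hD
    have hy0 : 0 < x ^ (m + 1) := pow_pos a _
    have hy1 : x ^ (m + 1) ≤ 1 := pow_le_one₀ a.le b.le
    have e1 : x ^ (m + 3) = x ^ (m + 1) * x ^ 2 := by ring
    have e2 : (x ^ 2) ^ (m + 3) = (x ^ (m + 1) * x ^ 2) ^ 2 := by ring
    have e3 : (x ^ 2) ^ (m + 3 - 1) = (x ^ (m + 1) * x) ^ 2 := by
      rw [show m + 3 - 1 = m + 2 from rfl]; ring
    have e4 : x ^ (m + 3 - 1) = x ^ (m + 1) * x := by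
      rw [show m + 3 - 1 = m + 2 from rfl]; ring
    rw [e1, e2, e3, e4]
    generalize x ^ (m + 1) = y at hy0 hy1
    have hm : (0 : ℝ) ≤ m := Nat.cast_nonneg m
    have hx2 : x ^ 2 ≤ 1 := pow_le_one₀ a.le b.le
    have k1 : y * x ^ 2 ≤ y := mul_le_of_le_one_right hy0.le hx2
    have k2 : 0 < y * x ^ 2 := by positivity
    have k3 : 2 * (m + 1) * (x ^ 2 * (y * x ^ 2)) * (1 - y) ≤ (m + 3) * (1 - (y * x ^ 2) ^ 2) := by
      have k4 : 2 * (x ^ 2 * (y * x ^ 2)) ≤ 1 + y * x ^ 2 := by nlinarith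
      have k5 : (m + 1) * (1 - y) ≤ (m + 3) * (1 - y * x ^ 2) := by nlinarith
      calc _ = 2 * (x ^ 2 * (y * x ^ 2)) * ((m + 1) * (1 - y)) := by ring
        _ ≤ (1 + y * x ^ 2) * ((m + 3) * (1 - y * x ^ 2)) :=
          mul_le_mul k4 k5 (mul_nonneg (by positivity) (by linarith)) (by positivity)
        _ = _ := by ring
    have k6 := mul_nonpos_of_nonpos_of_nonneg (sub_nonpos.2 k3)
      (div_pos hD (mul_pos a k2)).le
    refine le_of_eq_of_le ?_ k6
    push_cast at hN ⊢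
    field_simp
    ring
  have hc : ContinuousOn Ψ (Icc s 1) := by
    refine ContinuousOn.sub (ContinuousOn.mul ((continuousOn_pow _).inv₀ fun x hx =>
      (pow_pos (h0.trans_le hx.1) _).ne') (ContinuousOn.rpow_const (by fun_prop)
        fun _ _ => Or.inr hα.le)) (continuousOn_const.mul (continuousOn_const.sub
          ((continuousOn_fr hn).comp (continuousOn_pow 2) fun x hx =>
            ⟨by positivity, pow_le_one₀ (h0.le.trans hx.1) hx.2⟩)))
  have ha : AntitoneOn Ψ (Icc s 1) := by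
    refine antitoneOn_of_deriv_nonpos (convex_Icc s 1) hc (fun x hx => ?_) fun x hx => ?_
    · rw [interior_Icc] at hx
      obtain ⟨d, -, h⟩ := hd x (h0.trans hx.1) hx.2
      exact h.differentiableAt.differentiableWithinAt
    · rw [interior_Icc] at hx
      obtain ⟨d, h', h⟩ := hd x (h0.trans hx.1) hx.2
      rwa [h.deriv]
  have h := ha (left_mem_Icc.2 h1.le) (right_mem_Icc.2 h1.le) h1.le
  simp only [hΨ, one_pow, sub_self, Real.zero_rpow hα.ne', mul_zero, hp s h0 h1, sub_nonneg] at h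
  rwa [le_inv_mul_iff₀ (pow_pos h0 _)] at h

theorem fd_arc (hn : 3 ≤ n) {t : ℝ} (h0 : 0 < t) (h1 : t < 2 * th n) :
    e t ∈ Us n ∧ ∃ r : ℝ, 0 < r ∧ fd n (e t) * e t = r * e (th n) := by
  have hN := npos hn
  have a1 : 0 < n * t / 2 := by positivity
  have a2 : n * t / 2 < π := by
    rw [← mul_th hn]
    nlinarith
  have hs := Real.sin_pos_of_pos_of_lt_pi a1 a2
  have e1 : 1 - e t ^ n = (2 * Real.sin (n * t / 2) : ℝ) * e (n * t / 2 - π / 2) := by
    rw [e_pow, show (n : ℝ) * t = 2 * (n * t / 2) by ring]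
    generalize (n : ℝ) * t / 2 = x
    rw [show 2 * x / 2 = x by ring]
    apply Complex.ext
    · rw [sub_re, one_re, re_ofReal_mul, e_re, e_re, Real.cos_sub_pi_div_two, Real.cos_two_mul,
        Real.cos_sq']
      ring
    · rw [sub_im, one_im, im_ofReal_mul, e_im, e_im, Real.sin_sub_pi_div_two, Real.sin_two_mul]
      ring
  refine ⟨Or.inl ?_, Real.exp (-(2 / n) * Real.log (2 * Real.sin (n * t / 2))), Real.exp_pos _, ?_⟩
  · rw [e1, re_ofReal_mul, e_re, Real.cos_sub_pi_div_two]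
    positivity
  · have hN' : (n : ℂ) ≠ 0 := by exact_mod_cast hN.ne'
    rw [fd, e1, Complex.log_ofReal_mul (by positivity) (e_ne _), e, Complex.log_exp
      (by simp only [mul_I_im, ofReal_re]; linarith) (by simp only [mul_I_im, ofReal_re]; linarith),
      ofReal_exp, e, e, ← Complex.exp_add, ← Complex.exp_add, th]
    congr 1
    push_cast
    field_simp
    ring

theorem arc_le (hn : 3 ≤ n) (k : ℕ) {t : ℝ} (ht : t ∈ Icc 0 (2 * th n)) :
    (zt n ^ k * vx n * sc n (e t)).re ≤ fr n 1 := by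
  have hv : ∀ k : ℕ, (zt n ^ k * vx n * (fr n 1 : ℝ)).re ≤ fr n 1 := fun k => by
    have := key1_le hn (z := vx n) (by simpa [vx] using (abs_of_pos (T_pos hn)).le) k
    rw [re_mul_ofReal]
    exact mul_le_of_le_one_left (K_pos hn).le (by simpa [vx] using this)
  have h1 : sc n 1 = fr n 1 := by simpa using sc_real (n := n) zero_le_one le_rfl
  set c := zt n ^ k * vx n with hc
  have hcont : ContinuousOn (fun t => (c * sc n (e t)).re) (Icc 0 (2 * th n)) :=
    continuous_re.comp_continuousOn (continuousOn_const.mul ((continuousOn_sc hn).comp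
      (by unfold e; fun_prop) fun t _ => mem_closedBall_zero_iff.2 (norm_e t).le))
  have hd : ∀ t ∈ interior (Icc 0 (2 * th n)), ∃ r : ℝ, 0 < r ∧
      HasDerivAt (fun t => (c * sc n (e t)).re) (r * (c * I * e (th n)).re) t := fun t ht => by
    rw [interior_Icc] at ht
    obtain ⟨hU, r, hr, h⟩ := fd_arc hn ht.1 ht.2
    have a1 : HasDerivAt e (e t * I) t :=
      deriv_ray (b := I) (t := t) (Complex.hasDerivAt_exp _)
    have a2 := ((hasDerivAt_sc hU).comp_of_eq t a1 rfl).const_mul c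
    refine ⟨r, hr, (reCLM.hasFDerivAt.comp_hasDerivAt t a2).congr_deriv ?_⟩
    rw [reCLM_apply, ← mul_assoc (fd n _), h, ← re_ofReal_mul]
    congr 1
    ring
  have hdiff : DifferentiableOn ℝ (fun t => (c * sc n (e t)).re) (interior (Icc 0 (2 * th n))) :=
    fun t ht => by
      obtain ⟨r, -, h⟩ := hd t ht
      exact h.differentiableAt.differentiableWithinAt
  have hle : 0 ≤ 2 * th n := by linarith [th_pos hn]
  rcases le_total 0 (c * I * e (th n)).re with h | h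
  · have := monotoneOn_of_deriv_nonneg (convex_Icc _ _) hcont hdiff (fun t ht => by
      obtain ⟨r, hr, h'⟩ := hd t ht
      rw [h'.deriv]
      exact mul_nonneg hr.le h) ht (right_mem_Icc.2 hle) ht.2
    refine this.trans (le_of_eq_of_le ?_ (hv (k + 1)))
    change (c * sc n (zt n)).re = _
    rw [show sc n (zt n) = zt n * sc n 1 by rw [← sc_root (zt_pow_n hn), mul_one], h1, hc]
    congr 1
    ring
  · have := antitoneOn_of_deriv_nonpos (convex_Icc _ _) hcont hdiff (fun t ht => by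
      obtain ⟨r, hr, h'⟩ := hd t ht
      rw [h'.deriv]
      exact mul_nonpos_of_nonneg_of_nonpos hr.le h) (left_mem_Icc.2 hle) ht ht.1
    refine this.trans (le_of_eq_of_le ?_ (hv k))
    simp only [e_zero, h1, hc]

/-- The image of the disc lies in the polygon. -/
theorem image_le (hn : 3 ≤ n) (k : ℕ) {w : ℂ} (hw : ‖w‖ < 1) :
    (zt n ^ k * vx n * sc n w).re ≤ fr n 1 := by
  have hd : DiffContOnCl ℂ (fun w => Complex.exp (zt n ^ k * vx n * sc n w)) (ball 0 1) := by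
    refine ⟨fun w hw => (((hasDerivAt_sc (mem_Us hn (mem_ball_zero_iff.1 hw))).differentiableAt.const_mul
      _).cexp).differentiableWithinAt, ?_⟩
    rw [closure_ball _ one_ne_zero]
    exact (continuousOn_const.mul (continuousOn_sc hn)).cexp
  have := Complex.norm_le_of_forall_mem_frontier_norm_le isBounded_ball hd (C := Real.exp (fr n 1))
    (fun z hz => ?_) (subset_closure (mem_ball_zero_iff.2 hw))
  · rwa [Complex.norm_exp, Real.exp_le_exp] at this
  rw [frontier_ball _ one_ne_zero, mem_sphere_zero_iff_norm] at hz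
  have ht : 0 < 2 * th n := by linarith [th_pos hn]
  have h0 : 0 ≤ (arg z + 2 * π) / (2 * th n) :=
    div_nonneg (by linarith [neg_pi_lt_arg z, Real.pi_pos]) ht.le
  set j := ⌊(arg z + 2 * π) / (2 * th n)⌋₊ with hj
  have h1 := (le_div_iff₀ ht).1 (Nat.floor_le h0)
  have h2 := (div_lt_iff₀ ht).1 (Nat.lt_floor_add_one ((arg z + 2 * π) / (2 * th n)))
  have h3 : z = zt n ^ j * e (arg z + 2 * π - j * (2 * th n)) := by
    rw [zt, e_pow, ← e_add, add_sub_cancel, e_add]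
    have := norm_mul_exp_arg_mul_I z
    rw [hz] at this
    simpa [e] using this.symm
  have h4 : (zt n ^ j) ^ n = 1 := by rw [← pow_mul, mul_comm, pow_mul, zt_pow_n hn, one_pow]
  rw [Complex.norm_exp, Real.exp_le_exp, h3, sc_root h4]
  refine le_of_eq_of_le ?_ (arc_le hn (k + j) (t := arg z + 2 * π - j * (2 * th n))
    ⟨by linarith, by linarith⟩)
  congr 1
  ring

end Pool.Agent.Lib.MP_7c5c90_an.RP
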