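import Pool.Agent.Lib.MP_7c5c90_an.RP.Core

/-!
Friedrichs' inequality on the regular polygon.
-/

set_option autoImplicit false

open MeasureTheory Set Complex Filter Topology Metric
open scoped Real

namespace Pool.Agent.Lib.MP_7c5c90_an.RP

variable {n : ℕ}

theorem volume_Pol_lt_top (hn : 3 ≤ n) (ρ : ℝ) : volume (Pol n ρ) < ⊤ :=
  (isBounded_iff_forall_norm_le.2 ⟨_, fun _ hz => norm_le_of_mem hn hz⟩).measure_lt_top

theorem om_pos (hn : 3 ≤ n) : 0 < π - 2 * th n := by linarith [th_le hn, th_pos hn]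

theorem sin_lt_om (hn : 3 ≤ n) : Real.sin (2 * th n) < π - 2 * th n := by
  rw [← Real.sin_pi_sub]
  exact Real.sin_lt (om_pos hn)

theorem sin_two_pos (hn : 3 ≤ n) : 0 < Real.sin (2 * th n) :=
  Real.sin_pos_of_pos_of_lt_pi (by linarith [th_pos hn]) (by linarith [om_pos hn])

theorem upper (hn : 3 ≤ n) (w : ℂ → ℂ) (hw : DifferentiableOn ℂ w (Pol n 1))
    (hf : IntegrableOn (fun z => (w z).re ^ 2) (Pol n 1))
    (hg : IntegrableOn (fun z => (w z).im ^ 2) (Pol n 1)) (hm : ∫ z in Pol n 1, (w z).re = 0) :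
    ∫ z in Pol n 1, (w z).re ^ 2 ≤ (π - 2 * th n + Real.sin (2 * th n)) /
      (π - 2 * th n - Real.sin (2 * th n)) * ∫ z in Pol n 1, (w z).im ^ 2 := by
  have hQm : MeasurableSet (Pol n 1) := (isOpen_Pol hn 1).measurableSet
  have : IsFiniteMeasure (volume.restrict (Pol n 1)) :=
    isFiniteMeasure_restrict.2 (volume_Pol_lt_top hn 1).ne
  have key := fun h a b c => l1_bound hn (h := h) a b c
  generalize Pol n 1 = Q at *
  set a : ℝ := (w 0).re with ha
  set g0 : ℝ := (w 0).im with hg0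
  have hwm : AEStronglyMeasurable w (volume.restrict Q) := hw.continuousOn.aestronglyMeasurable hQm
  have hf1 : IntegrableOn (fun z => (w z).re) Q := by
    refine Integrable.mono' (hf.add (integrable_const 1))
      (continuous_re.comp_aestronglyMeasurable hwm) (Eventually.of_forall fun z => ?_)
    rw [Real.norm_eq_abs, Pi.add_apply, ← sq_abs]
    nlinarith [abs_nonneg (w z).re]
  have hfa : IntegrableOn (fun z => ((w z).re - a) ^ 2) Q := by
    have := (hf.sub (hf1.const_mul (2 * a))).add (integrable_const (a ^ 2))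
    refine this.congr (Eventually.of_forall fun z => ?_)
    simp only [Pi.add_apply, Pi.sub_apply]; ring
  have hle : ∫ z in Q, (w z).re ^ 2 ≤ ∫ z in Q, ((w z).re - a) ^ 2 := by
    have e : ∫ z in Q, ((w z).re - a) ^ 2 =
        ∫ z in Q, ((w z).re ^ 2 - 2 * a * (w z).re + a ^ 2) := by
      congr 1; ext z; ring
    have i1 : IntegrableOn (fun z => (w z).re ^ 2 - 2 * a * (w z).re) Q :=
      hf.sub (hf1.const_mul (2 * a))
    rw [e, integral_add i1 (integrable_const _),
      integral_sub hf (hf1.const_mul (2 * a)), integral_const_mul, hm]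
    have : 0 ≤ ∫ _ in Q, a ^ 2 := integral_nonneg fun _ => sq_nonneg a
    linarith
  set h : ℂ → ℂ := fun z => (w z - a) ^ 2 + (g0 : ℂ) ^ 2 with hh
  have hnorm : ∀ z, ‖h z‖ ≤ ((w z).re - a) ^ 2 + (w z).im ^ 2 + g0 ^ 2 := by
    intro z
    refine le_trans (norm_add_le _ _) (le_of_eq ?_)
    rw [norm_pow, norm_pow, ← Complex.normSq_eq_norm_sq, ← Complex.normSq_eq_norm_sq,
      Complex.normSq_apply, Complex.normSq_apply]
    simp; ring
  have hre : ∀ z, (h z).re = ((w z).re - a) ^ 2 - (w z).im ^ 2 + g0 ^ 2 := by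
    intro z
    simp [hh, sq]
  have hd : DifferentiableOn ℂ h Q := ((hw.sub_const _).pow 2).add_const _
  have h0 : h 0 = 0 := by
    have : w 0 - a = g0 * I := by
      apply Complex.ext <;> simp [ha, hg0]
    simp only [hh, this]
    linear_combination (g0 : ℂ) ^ 2 * I_sq
  have hbi : IntegrableOn (fun z => ((w z).re - a) ^ 2 + (w z).im ^ 2 + g0 ^ 2) Q :=
    (hfa.add hg).add (integrable_const _)
  have hi : IntegrableOn h Q :=
    Integrable.mono' hbi (hd.continuousOn.aestronglyMeasurable hQm) (Eventually.of_forall hnorm)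
  have key := key h hd h0 hi
  have k1 : ∫ z in Q, ‖h z‖ ≤ ∫ z in Q, (((w z).re - a) ^ 2 + (w z).im ^ 2 + g0 ^ 2) :=
    integral_mono hi.norm hbi hnorm
  have k2 : ∫ z in Q, (((w z).re - a) ^ 2 - (w z).im ^ 2 + g0 ^ 2) ≤ ‖∫ z in Q, h z‖ := by
    refine le_trans (le_of_eq ?_) (Complex.re_le_norm _)
    have := reCLM.integral_comp_comm hi
    simp only [reCLM_apply, hre] at this
    exact this
  have j1 : IntegrableOn (fun z => ((w z).re - a) ^ 2 + (w z).im ^ 2) Q := hfa.add hg
  have j2 : IntegrableOn (fun z => ((w z).re - a) ^ 2 - (w z).im ^ 2) Q := hfa.sub hg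
  rw [integral_add j1 (integrable_const _), integral_add hfa hg] at k1
  rw [integral_add j2 (integrable_const _), integral_sub hfa hg] at k2
  have k3 : 0 ≤ ∫ _ in Q, g0 ^ 2 := integral_nonneg fun _ => sq_nonneg g0
  have hpi := sub_pos.2 (sin_lt_om hn)
  refine le_trans hle ?_
  rw [div_mul_eq_mul_div, le_div_iff₀ hpi]
  linarith [mul_le_mul_of_nonneg_left k2 (om_pos hn).le, mul_nonneg hpi.le k3,
    mul_le_mul_of_nonneg_left k1 (sin_two_pos hn).le]

end Pool.Agent.Lib.MP_7c5c90_an.RP
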